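import Pool.Agent.Work.ChenW.B_PRIMW2

/-!
# From `Stmt_PRIMW2` to the statement of the hand-in
-/

set_option autoImplicit false

namespace Pool.Agent.ChenW

open Finset Pool.Agent.Chen Pool.Agent.Work.MP_484fb8_nt

/-- `r` is a prime, or a product of two primes that are both at least `m ^ (1/8)`. -/
def PrimeOrProduct (m r : ℕ) : Prop :=
  r.Prime ∨ ∃ a b : ℕ, a.Prime ∧ b.Prime ∧ (m : ℝ) ^ (1 / 8 : ℝ) ≤ a ∧ (m : ℝ) ^ (1 / 8 : ℝ) ≤ b ∧
    r = a * b

theorem pop {m r : ℕ} (hr : 2 ≤ r) (h1 : r.primeFactorsList.length ≤ 2)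
    (h2 : ∀ q ∈ r.primeFactorsList, (m : ℝ) ^ (1 / 8 : ℝ) ≤ q) : PrimeOrProduct m r := by
  have hprod := Nat.prod_primeFactorsList (n := r) (by omega)
  rcases hl : r.primeFactorsList with _ | ⟨a, _ | ⟨b, _ | ⟨e, l⟩⟩⟩
  · rw [hl, List.prod_nil] at hprod
    omega
  · left
    have ha : a ∈ r.primeFactorsList := by rw [hl]; simp
    rw [hl, List.prod_cons, List.prod_nil, mul_one] at hprod
    rw [← hprod]
    exact Nat.prime_of_mem_primeFactorsList ha
  · right
    have ha : a ∈ r.primeFactorsList := by rw [hl]; simp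
    have hb : b ∈ r.primeFactorsList := by rw [hl]; simp
    rw [hl, List.prod_cons, List.prod_cons, List.prod_nil, mul_one] at hprod
    exact ⟨a, b, Nat.prime_of_mem_primeFactorsList ha, Nat.prime_of_mem_primeFactorsList hb,
      h2 a ha, h2 b hb, hprod.symm⟩
  · rw [hl] at h1
    simp at h1

open scoped Classical in
theorem fin (h : Stmt_PRIMW2) : ∃ c : ℝ, 0 < c ∧ ∀ k : ℕ, ∃ n₀ : ℕ, ∀ n, n₀ ≤ n →
    ∀ m ∈ evensIn (n + 1), ∀ a Y : ℕ, prml (n - 1) ≤ a → a + Y ≤ prml n + 1 →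
      a + Y + prml (n - 1) < m → (prml n : ℝ) ≤ Y * (Real.log (prml n)) ^ k →
      c * (SS m * (Y / (Real.log (prml n)) ^ 2)) ≤
        (#{p ∈ primesIn n | p ∈ Ioc a (a + Y) ∧
          ∃ s ∈ primorialInterval n ∪ primorialInterval (n + 1), m = p + s ∧ PrimeOrProduct m s} : ℝ) ∧
      c * (SS m * (Y / (Real.log (prml n)) ^ 2)) ≤
        (#{s ∈ primorialInterval n | s ∈ Ioc a (a + Y) ∧ PrimeOrProduct m s ∧
          ∃ q ∈ primesIn n ∪ primesIn (n + 1), m = q + s} : ℝ) := by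
  obtain ⟨c, hc, h⟩ := h
  refine ⟨c, hc, fun k => ?_⟩
  obtain ⟨n₀, h⟩ := h k
  refine ⟨n₀, fun n hn m hm a Y ha haX haY hY => ?_⟩
  obtain ⟨h1, h2⟩ := h n hn m hm a Y ha haX haY hY
  have hpos : 0 < prml (n - 1) := prml_pos (n - 1)
  have hpos2 : 0 < prml (n + 1 - 1) := prml_pos (n + 1 - 1)
  constructor
  · refine h1.trans (Nat.cast_le.2 (card_le_card fun p hp => ?_))
    rw [mem_filter] at hp
    simp only [mem_filter]
    obtain ⟨hp1, hp2, hp3, hp4, hp5⟩ := hp
    have hs2 : 2 ≤ m - p := by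
      unfold primorialInterval at hp3
      rw [mem_union, mem_Icc, mem_Icc] at hp3
      rcases hp3 with hp3 | hp3 <;> omega
    exact ⟨hp2, hp1, m - p, hp3, by omega, pop hs2 hp4 hp5⟩
  · refine h2.trans (Nat.cast_le.2 (card_le_card fun s hs => ?_))
    rw [mem_filter] at hs
    simp only [mem_filter]
    obtain ⟨hs1, hs2, hs3, hs4, hs5⟩ := hs
    have hs6 : 2 ≤ s := by
      unfold primorialInterval at hs2
      rw [mem_Icc] at hs2
      omega
    have hq : 0 < m - s := by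
      unfold primesIn at hs3
      rw [mem_union, mem_filter, mem_filter] at hs3
      rcases hs3 with h5 | h5
      · exact h5.2.pos
      · exact h5.2.pos
    exact ⟨hs2, hs1, pop hs6 hs4 hs5, m - s, hs3, by omega⟩

end Pool.Agent.ChenW
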