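import Pool.Agent.Work.ChenW.Interface
import Pool.Agent.Work.Chen.A1

/-!
# The main term of Chen's theorem in a window `(U, U + Y]`; the remainder term by Bombieri–Vinogradov
-/

set_option autoImplicit false

namespace Pool.Agent.ChenW

open Finset Filter Pool.Agent.Chen
open scoped Classical

/-- The error term for the modulus `m`. -/
noncomputable def EmW (N U Y m : ℕ) : ℝ :=
  |(((PrW U Y).filter (fun p => m ∣ N - p)).card : ℝ) - ((PrW U Y).card : ℝ) / (m.totient : ℝ)|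

lemma EmW_nonneg (N U Y m : ℕ) : 0 ≤ EmW N U Y m := abs_nonneg _

lemma split_cardW (U Y : ℕ) (R : ℕ → Prop) [DecidablePred R] :
    (((Ioc 0 (U + Y)).filter (fun n : ℕ => n.Prime ∧ R n)).card : ℝ) =
      (((Ioc 0 U).filter (fun n : ℕ => n.Prime ∧ R n)).card : ℝ) +
        (((PrW U Y).filter R).card : ℝ) := by
  have h1 : (Ioc 0 (U + Y)).filter (fun n : ℕ => n.Prime ∧ R n) =
      (Ioc 0 U).filter (fun n : ℕ => n.Prime ∧ R n) ∪ (PrW U Y).filter R := by
    ext n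
    simp only [PrW, mem_filter, mem_union, mem_Ioc]
    constructor
    · rintro ⟨⟨h1, h2⟩, h3, h4⟩
      rcases le_or_gt n U with h5 | h5
      · exact Or.inl ⟨⟨h1, h5⟩, h3, h4⟩
      · exact Or.inr ⟨⟨⟨h5, h2⟩, h3⟩, h4⟩
    · rintro (⟨⟨h1, h2⟩, h3, h4⟩ | ⟨⟨⟨h1, h2⟩, h3⟩, h4⟩)
      · exact ⟨⟨h1, by omega⟩, h3, h4⟩
      · exact ⟨⟨by omega, h2⟩, h3, h4⟩
  rw [h1, card_union_of_disjoint, Nat.cast_add]
  rw [disjoint_left]
  intro n h2 h3
  simp only [PrW, mem_filter, mem_Ioc] at h2 h3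
  omega

/-- The sum of the errors, by Bombieri–Vinogradov. -/
theorem err_sumW (A : ℕ) : ∃ (B : ℕ) (C : ℝ), 0 < C ∧ ∀ (N U Y : ℕ), 2 ≤ N → U + Y ≤ N → ∀ Q : ℕ,
    (Q : ℝ) ≤ √(N : ℝ) / (Real.log N) ^ B → ∀ M : Finset ℕ,
    (∀ m ∈ M, 0 < m ∧ m ≤ Q ∧ m.Coprime N) →
    ∑ m ∈ M, EmW N U Y m ≤ C * (N / (Real.log N) ^ A) := by
  obtain ⟨B, C, hC, hBV⟩ := BV.main_bvp A
  refine ⟨B, 2 * C, by positivity, fun N U Y hN hYN Q hQ M hM => ?_⟩
  have hN2 : (2 : ℝ) ≤ N := by exact_mod_cast hN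
  let a : (q : ℕ) → ZMod q := fun q => if q.Coprime N then (N : ZMod q) else 1
  have ha : ∀ q, IsUnit (a q) := by
    intro q
    by_cases h : q.Coprime N
    · simp only [a, if_pos h]
      exact (ZMod.isUnit_iff_coprime N q).2 h.symm
    · simp only [a, if_neg h]
      exact isUnit_one
  have h1 := hBV N hN2 Q hQ (fun _ => U + Y) (fun _ => by exact_mod_cast hYN) a ha
  have h2 := hBV N hN2 Q hQ (fun _ => U) (fun _ => by
    exact_mod_cast (Nat.le_add_right U Y).trans hYN) a ha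
  have h3 : ∀ m ∈ M, EmW N U Y m ≤
      |((((Ioc 0 (U + Y)).filter (fun n : ℕ => n.Prime ∧ (n : ZMod m) = a m)).card : ℝ)
        - (((Ioc 0 (U + Y)).filter Nat.Prime).card : ℝ) / (m.totient : ℝ))| +
      |((((Ioc 0 U).filter (fun n : ℕ => n.Prime ∧ (n : ZMod m) = a m)).card : ℝ)
        - (((Ioc 0 U).filter Nat.Prime).card : ℝ) / (m.totient : ℝ))| := by
    intro m hm
    obtain ⟨hm0, hmQ, hmc⟩ := hM m hm
    have h4 := split_cardW U Y (fun n : ℕ => (n : ZMod m) = a m)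
    have h5 := split_cardW U Y (fun _ : ℕ => True)
    have h6 : (PrW U Y).filter (fun n : ℕ => (n : ZMod m) = a m) =
        (PrW U Y).filter (fun p => m ∣ N - p) := by
      apply filter_congr
      intro p hp
      have hp1 := mem_Ioc.1 (mem_filter.1 hp).1
      have h7 : p ≤ N := hp1.2.trans hYN
      rw [dvd_sub_iff h7]
      simp only [a, if_pos hmc]
    rw [h6] at h4
    simp only [and_true, filter_true] at h5
    unfold EmW
    rw [show ((((PrW U Y).filter (fun p => m ∣ N - p)).card : ℝ)) - ((PrW U Y).card : ℝ) / (m.totient : ℝ)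
      = ((((Ioc 0 (U + Y)).filter (fun n : ℕ => n.Prime ∧ (n : ZMod m) = a m)).card : ℝ)
        - (((Ioc 0 (U + Y)).filter Nat.Prime).card : ℝ) / (m.totient : ℝ)) -
        ((((Ioc 0 U).filter (fun n : ℕ => n.Prime ∧ (n : ZMod m) = a m)).card : ℝ)
        - (((Ioc 0 U).filter Nat.Prime).card : ℝ) / (m.totient : ℝ)) by
      rw [h4, h5]; ring]
    exact abs_sub _ _
  have h4 : M ⊆ Ioc 0 Q := fun m hm => mem_Ioc.2 ⟨(hM m hm).1, (hM m hm).2.1⟩
  calc ∑ m ∈ M, EmW N U Y m ≤ ∑ m ∈ M, (|((((Ioc 0 (U + Y)).filter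
          (fun n : ℕ => n.Prime ∧ (n : ZMod m) = a m)).card : ℝ)
          - (((Ioc 0 (U + Y)).filter Nat.Prime).card : ℝ) / (m.totient : ℝ))| +
        |((((Ioc 0 U).filter (fun n : ℕ => n.Prime ∧ (n : ZMod m) = a m)).card : ℝ)
          - (((Ioc 0 U).filter Nat.Prime).card : ℝ) / (m.totient : ℝ))|) := sum_le_sum h3
    _ ≤ ∑ m ∈ Ioc 0 Q, (|((((Ioc 0 (U + Y)).filter
          (fun n : ℕ => n.Prime ∧ (n : ZMod m) = a m)).card : ℝ)
          - (((Ioc 0 (U + Y)).filter Nat.Prime).card : ℝ) / (m.totient : ℝ))| +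
        |((((Ioc 0 U).filter (fun n : ℕ => n.Prime ∧ (n : ZMod m) = a m)).card : ℝ)
          - (((Ioc 0 U).filter Nat.Prime).card : ℝ) / (m.totient : ℝ))|) :=
        sum_le_sum_of_subset_of_nonneg h4 (fun _ _ _ => by positivity)
    _ ≤ C * (N / (Real.log N) ^ A) + C * (N / (Real.log N) ^ A) := by
        rw [sum_add_distrib]
        exact add_le_add h1 h2
    _ = _ := by ring

/-- Basic facts for admissible windows. -/
lemma reg_basicW {k N U Y : ℕ} (h : RegW k N U Y) (hN : 1 ≤ N) : 1 ≤ Y := by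
  obtain ⟨h1, h2, h3, -⟩ := h
  rcases Nat.eq_zero_or_pos Y with h4 | h4
  · subst h4
    have : (1 : ℝ) ≤ N := by exact_mod_cast hN
    simp at h3
    omega
  · exact h4

/-- The level of distribution. -/
theorem levelW (B : ℕ) (η K : ℝ) (hη : 0 < η) (hK : 0 < K) : ∃ N₀ : ℕ, ∀ N ≥ N₀,
    (N : ℝ) ^ (1 / 2 - η) * K ≤ √(N : ℝ) / (Real.log N) ^ B := by
  obtain ⟨N₀, hN₀⟩ := ev_nat ((log_pow_le B η K hη hK).and
    (eventually_ge_atTop (Real.exp 1)))
  refine ⟨N₀, fun N hN => ?_⟩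
  obtain ⟨h1, h2⟩ := hN₀ N hN
  have hN0 : (0 : ℝ) < N := (Real.exp_pos 1).trans_le h2
  have hl1 : 1 ≤ Real.log N := by
    rw [Real.le_log_iff_exp_le hN0]
    exact h2
  have hl0 : 0 < Real.log N := by linarith
  rw [le_div_iff₀ (by positivity)]
  have h4 : (N : ℝ) ^ (1 / 2 - η) * (N : ℝ) ^ η = √(N : ℝ) := by
    rw [← Real.rpow_add hN0, Real.sqrt_eq_rpow]
    congr 1
    ring
  rw [← h4]
  calc (N : ℝ) ^ (1 / 2 - η) * K * (Real.log N) ^ B
      = (N : ℝ) ^ (1 / 2 - η) * (K * (Real.log N) ^ B) := by ring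
    _ ≤ _ := by gcongr

/-- **The remainder term**: small against the main term. -/
theorem err_smallW (hPRW : Stmt_PRW) (k : ℕ) (δ η K : ℝ) (hδ : 0 < δ) (hη : 0 < η) (hK : 0 < K) :
    ∃ N₀ : ℕ, ∀ N ≥ N₀, ∀ U Y, RegW k N U Y → ∀ M : Finset ℕ,
    (∀ m ∈ M, 0 < m ∧ (m : ℝ) < (N : ℝ) ^ (1 / 2 - η) * K ∧ m.Coprime N) →
    ∑ m ∈ M, EmW N U Y m ≤ δ * (((PrW U Y).card : ℝ) * VN N ((N : ℝ) ^ (1 / 8 : ℝ))) := by
  obtain ⟨B, C, hC, hE⟩ := err_sumW (k + 3)
  obtain ⟨N₁, h1⟩ := levelW B η K hη hK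
  obtain ⟨N₂, h2⟩ := hPRW k (1 / 2) (by norm_num)
  obtain ⟨c, hc, hV⟩ := VN_lower
  obtain ⟨N₃, h3⟩ := ev_nat ((Real.tendsto_log_atTop.eventually_ge_atTop (4 * C / (c * δ))).and
      (eventually_ge_atTop (256 : ℝ)))
  refine ⟨max N₁ (max N₂ N₃), fun N hN U Y hR M hM => ?_⟩
  have hN1 : N₁ ≤ N := (le_max_left _ _).trans hN
  have hN2 : N₂ ≤ N := (le_max_left _ _).trans ((le_max_right _ _).trans hN)
  have hN3 : N₃ ≤ N := (le_max_right _ _).trans ((le_max_right _ _).trans hN)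
  obtain ⟨h5, h6⟩ := h3 N hN3
  have hN0 : (0 : ℝ) < N := by linarith
  have hNn : 2 ≤ N := by
    have : (2 : ℝ) ≤ N := by linarith
    exact_mod_cast this
  have hY1 := reg_basicW hR (by omega)
  have hY1' : (1 : ℝ) ≤ Y := by exact_mod_cast hY1
  have hl0 : 0 < Real.log N := Real.log_pos (by linarith)
  -- the sum of the errors
  have h7 : ∑ m ∈ M, EmW N U Y m ≤ C * (N / (Real.log N) ^ (k + 3)) := by
    apply hE N U Y hNn hR.2.1 ⌊(N : ℝ) ^ (1 / 2 - η) * K⌋₊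
    · exact (Nat.floor_le (by positivity)).trans (h1 N hN1)
    · intro m hm
      obtain ⟨h8, h9, h10⟩ := hM m hm
      exact ⟨h8, Nat.le_floor h9.le, h10⟩
  refine h7.trans ?_
  have h8 := (h2 N hN2 U Y hR).1
  have h9 : c / Real.log ((N : ℝ) ^ (1 / 8 : ℝ)) ≤ VN N ((N : ℝ) ^ (1 / 8 : ℝ)) := by
    apply hV N hR.1
    calc (2 : ℝ) = (256 : ℝ) ^ (1 / 8 : ℝ) := by
          rw [show (256 : ℝ) = 2 ^ (8 : ℝ) by norm_num, ← Real.rpow_mul (by norm_num)]
          norm_num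
      _ ≤ _ := Real.rpow_le_rpow (by norm_num) h6 (by norm_num)
  rw [Real.log_rpow hN0] at h9
  have hRY := hR.2.2.1
  set V := VN N ((N : ℝ) ^ (1 / 8 : ℝ))
  set L := Real.log N
  have h10 : C * (N / L ^ (k + 3)) ≤ C * (Y / L ^ 3) := by
    apply mul_le_mul_of_nonneg_left _ hC.le
    rw [div_le_div_iff₀ (by positivity) (by positivity), pow_add]
    calc (N : ℝ) * L ^ 3 ≤ (Y * L ^ k) * L ^ 3 := mul_le_mul_of_nonneg_right hRY (by positivity)
      _ = _ := by ring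
  refine h10.trans ?_
  have h11 : (1 / 2) * (Y / L) * (c / (1 / 8 * L)) ≤ ((PrW U Y).card : ℝ) * V := by
    apply mul_le_mul _ h9 (by positivity) (by positivity)
    linarith
  have h12 : δ * ((1 / 2) * (Y / L) * (c / (1 / 8 * L))) ≤ δ * (((PrW U Y).card : ℝ) * V) := by
    gcongr
  refine le_trans ?_ h12
  have h13 : C * (Y / L ^ 3) = (4 * Y / L ^ 2) * (C / 4 / L) := by
    field_simp
  have h14 : δ * ((1 / 2) * (Y / L) * (c / (1 / 8 * L))) = (4 * Y / L ^ 2) * (c * δ) := by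
    field_simp
    ring
  rw [h13, h14]
  apply mul_le_mul_of_nonneg_left _ (by positivity)
  rw [div_le_iff₀ hl0]
  rw [div_le_iff₀ (by positivity)] at h5
  nlinarith

theorem p_A1W (hPRW : Stmt_PRW) : Stmt_A1W := by
  intro A hLin k δ hδ
  obtain ⟨hA, hLin⟩ := hLin
  obtain ⟨ε, hε, hS⟩ := hLin (δ / 4) (by positivity)
  obtain ⟨u₀, hu₀, hd⟩ := dens ε hε
  set η : ℝ := min (1 / 24) (δ / (4 * A)) with hηdef
  have hη : 0 < η := lt_min (by norm_num) (by positivity)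
  have hη1 : η ≤ 1 / 24 := min_le_left _ _
  have hη2 : A * η ≤ δ / 4 := by
    calc A * η ≤ A * (δ / (4 * A)) := mul_le_mul_of_nonneg_left (min_le_right _ _) hA.le
      _ = δ / 4 := by field_simp
  have hK : (0 : ℝ) < (u₀ : ℝ) ^ u₀ := by
    have : (0 : ℝ) < u₀ := by exact_mod_cast (by omega : 0 < u₀)
    positivity
  obtain ⟨N₁, h1⟩ := err_smallW hPRW k (δ / 4) η ((u₀ : ℝ) ^ u₀) (by positivity) hη hK
  refine ⟨max N₁ 256, fun N hN U Y hR => ?_⟩
  have hN1 : N₁ ≤ N := (le_max_left _ _).trans hN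
  have hN2 : (256 : ℝ) ≤ N := by exact_mod_cast (le_max_right _ _).trans hN
  have hN0 : (0 : ℝ) < N := by linarith
  have hNgt : (1 : ℝ) < N := by linarith
  have hY1 := reg_basicW hR (by
    have : 0 < N := by exact_mod_cast hN0
    exact this)
  set z : ℝ := (N : ℝ) ^ (1 / 8 : ℝ) with hz
  set D : ℝ := (N : ℝ) ^ (1 / 2 - η) with hD
  have hz2 : 2 ≤ z := by
    calc (2 : ℝ) = (256 : ℝ) ^ (1 / 8 : ℝ) := by
          rw [show (256 : ℝ) = 2 ^ (8 : ℝ) by norm_num, ← Real.rpow_mul (by norm_num)]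
          norm_num
      _ ≤ _ := Real.rpow_le_rpow (by norm_num) hN2 (by norm_num)
  have hzD : z ^ 2 ≤ D := by
    rw [hz, ← Real.rpow_mul_natCast hN0.le]
    apply Real.rpow_le_rpow_of_exponent_le hNgt.le
    push_cast
    linarith
  have hDz : D ≤ z ^ 4 := by
    rw [hz, ← Real.rpow_mul_natCast hN0.le]
    apply Real.rpow_le_rpow_of_exponent_le hNgt.le
    push_cast
    linarith
  have h2 := (hS (Sf N z) (Qf N z u₀) (fun p => 1 / ((p : ℝ) - 1)) Sf_prime (Qf_sub N z u₀) g_nonneg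
    (g_lt_one hR.1) z D hz2 Sf_lt (fun u w hu huw hw => hd N z u w hu huw hw) (PrW U Y)
    (fun p => N - p) (fun _ => 1) (fun _ _ => zero_le_one) ((PrW U Y).card : ℝ)
    (Nat.cast_nonneg _)).2 hzD hDz
  have hs : Real.log D / Real.log z = 4 - 8 * η := by
    rw [hD, hz, log_ratio hNgt]
    ring
  rw [hs] at h2
  -- the sieve function
  have h3 : A * Real.log 3 / 4 - δ / 4 ≤ A * Real.log (4 - 8 * η - 1) / (4 - 8 * η) := by
    have h4 : Real.log 3 - 4 * η ≤ Real.log (4 - 8 * η - 1) := by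
      have h5 : Real.log (4 - 8 * η - 1) = Real.log 3 + Real.log ((3 - 8 * η) / 3) := by
        rw [← Real.log_mul (by norm_num) (by
          have : 0 < (3 - 8 * η) / 3 := by
            apply div_pos <;> linarith
          exact this.ne')]
        congr 1
        ring
      have h6 : 0 < (3 - 8 * η) / 3 := by apply div_pos <;> linarith
      have h7 := Real.one_sub_inv_le_log_of_pos h6
      have h8 : -(4 * η) ≤ 1 - ((3 - 8 * η) / 3)⁻¹ := by
        rw [inv_div]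
        have h9 : 3 / (3 - 8 * η) ≤ 1 + 4 * η := by
          rw [div_le_iff₀ (by linarith)]
          nlinarith
        linarith
      linarith
    have h5 : 0 ≤ Real.log (4 - 8 * η - 1) := Real.log_nonneg (by linarith)
    have h6 : A * Real.log (4 - 8 * η - 1) / 4 ≤ A * Real.log (4 - 8 * η - 1) / (4 - 8 * η) := by
      apply div_le_div_of_nonneg_left (by positivity) (by linarith) (by linarith)
    have h7 : A * (Real.log 3 - 4 * η) / 4 ≤ A * Real.log (4 - 8 * η - 1) / 4 := by gcongr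
    nlinarith
  -- the remainder
  have h4 : ∑ d ∈ (∏ p ∈ Sf N z, p).divisors.filter
      (fun d : ℕ => (d : ℝ) < D * (∏ q ∈ Qf N z u₀, q : ℕ)),
        |∑ i ∈ (PrW U Y).filter (fun i => d ∣ N - i), (1 : ℝ) - ((PrW U Y).card : ℝ) *
          ∏ p ∈ d.primeFactors, (1 / ((p : ℝ) - 1))| ≤ δ / 4 * (((PrW U Y).card : ℝ) * VN N z) := by
    refine le_trans (le_of_eq ?_) (h1 N hN1 U Y hR ((∏ p ∈ Sf N z, p).divisors.filter
      (fun d : ℕ => (d : ℝ) < D * (∏ q ∈ Qf N z u₀, q : ℕ))) ?_)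
    · apply sum_congr rfl
      intro d hd
      have h5 := Nat.dvd_of_mem_divisors (mem_filter.1 hd).1
      rw [prod_g_eq (squarefree_of_mem h5), sum_const, nsmul_eq_mul, mul_one, mul_one_div]
      rfl
    · intro d hd
      have h5 := Nat.dvd_of_mem_divisors (mem_filter.1 hd).1
      refine ⟨Nat.pos_of_mem_divisors (mem_filter.1 hd).1, ?_, coprime_of_mem h5⟩
      refine (mem_filter.1 hd).2.trans_le ?_
      apply mul_le_mul_of_nonneg_left _ (by positivity)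
      exact_mod_cast prod_Qf_le N z u₀ (by omega)
  have h5 : ∑ i ∈ (PrW U Y).filter (fun i => ∀ p ∈ Sf N z, ¬ p ∣ N - i), (1 : ℝ) = (S1W N U Y z : ℝ) := by
    rw [sum_const, nsmul_eq_mul, mul_one]
    rfl
  have h6 : 0 ≤ ((PrW U Y).card : ℝ) * VN N z := mul_nonneg (Nat.cast_nonneg _) (VN_pos hR.1 z).le
  have h7 : ((PrW U Y).card : ℝ) * VN N z * (A * Real.log 3 / 4 - δ / 4 - δ / 4) -
      δ / 4 * (((PrW U Y).card : ℝ) * VN N z) ≤ (S1W N U Y z : ℝ) := by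
    rw [← h5]
    refine le_trans ?_ h2
    apply sub_le_sub _ h4
    apply mul_le_mul_of_nonneg_left _ h6
    linarith
  nlinarith

end Pool.Agent.ChenW
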