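import Pool.Agent.Work.Chen.Interface
import Pool.Agent.Work.MP_484fb8_nt.Defs

/-!
# Chen's theorem with the prime in an arbitrary window `(U, U + Y]`, `U`, `Y` and `N - U - Y` all at
least `N / (log N)^k`.

Every block is the block of the same name in `Pool/Agent/Work/Chen/` with the window `(Y, 2Y]` of
the primes replaced by `(U, U + Y]`. COPY the file, change the definitions, repair. Reused from
`Chen/Interface.lean`: LinProp, Sf, VN, Qs, Tri, SS, Stmt_PS, Stmt_VL, Stmt_NUM.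
-/

set_option autoImplicit false

namespace Pool.Agent.ChenW

open Finset Pool.Agent.Chen
open scoped Classical

/-- The primes in `(U, U + Y]`. -/
noncomputable def PrW (U Y : ℕ) : Finset ℕ := (Ioc U (U + Y)).filter Nat.Prime

/-- The number of `p ∈ PrW U Y` such that `N - p` has no prime factor in `Sf N z`. -/
noncomputable def S1W (N U Y : ℕ) (z : ℝ) : ℕ :=
  ((PrW U Y).filter (fun p => ∀ q ∈ Sf N z, ¬ q ∣ N - p)).card

/-- The same with `q ∣ N - p`. -/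
noncomputable def SqW (N U Y : ℕ) (z : ℝ) (q : ℕ) : ℕ :=
  ((PrW U Y).filter (fun p => q ∣ N - p ∧ ∀ q' ∈ Sf N z, ¬ q' ∣ N - p)).card

/-- The products of `Tri` in the window `[N - U - Y, N - U)`, that is `N - l ∈ (U, U + Y]`. -/
noncomputable def TBW (N U Y : ℕ) (z y : ℝ) : Finset ℕ :=
  (Ico (N - (U + Y)) (N - U)).filter (Tri z y)

/-- Those for which moreover `N - l` is prime. -/
noncomputable def S3W (N U Y : ℕ) (z y : ℝ) : ℕ :=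
  ((TBW N U Y z y).filter (fun l => (N - l).Prime)).card

/-- The number of `p ∈ PrW U Y` such that `N - p` has at most two prime factors, and these are
at least `z`. -/
noncomputable def Cnt2W (N U Y : ℕ) (z : ℝ) : ℕ :=
  ((PrW U Y).filter (fun p => (N - p).primeFactorsList.length ≤ 2 ∧
    ∀ q ∈ (N - p).primeFactorsList, z ≤ (q : ℝ))).card

/-- The admissible windows. -/
def RegW (k N U Y : ℕ) : Prop := Even N ∧ U + Y ≤ N ∧ (N : ℝ) ≤ Y * (Real.log N) ^ k ∧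
  (N : ℝ) ≤ U * (Real.log N) ^ k ∧ (N : ℝ) ≤ (N - U - Y : ℝ) * (Real.log N) ^ k

/-- CIW (copy of CI2.lean, with `weight`, `mult_count`, `sum_inv_sq` of CI.lean; a prime factor
`q < y ≤ U` of `N - p` and of `N` would be `p > U`; the numbers `n = N - p` run through an interval
of length `Y`; those divisible by `q²`, `q ≥ z`, are at most `∑ (Y / q² + 1)` over `q ≤ √N`). -/
def Stmt_CIW : Prop := ∀ (N U Y : ℕ) (z y : ℝ), 1 ≤ U → 1 ≤ Y → U + Y < N → 2 ≤ z → z ≤ y →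
  y ≤ U → (N : ℝ) ≤ y ^ 3 →
  (S1W N U Y z : ℝ) - 1 / 2 * ∑ q ∈ Qs N z y, (SqW N U Y z q : ℝ) - 1 / 2 * (S3W N U Y z y : ℝ)
    - (2 * Y / z + √(N : ℝ) + 1) ≤ (Cnt2W N U Y z : ℝ)

/-- PRW: the number of primes in `(U, U + Y]`, from the prime number theorem with the error
`O(x / (log x)^(k+2))` (`Pool/Agent/Work/SW/PNT.lean`, see its use in `Chen/XB.lean`, lemma `cnt`). -/
def Stmt_PRW : Prop := ∀ (k : ℕ) (δ : ℝ), 0 < δ → ∃ N₀ : ℕ, ∀ N ≥ N₀, ∀ U Y, RegW k N U Y →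
  (1 - δ) * (Y / Real.log N) ≤ ((PrW U Y).card : ℝ) ∧
  ((PrW U Y).card : ℝ) ≤ (1 + δ) * (Y / Real.log N)

/-- A1W (uses PRW; copy of A1.lean, Bombieri-Vinogradov for `(U, U + Y]` by subtraction; the error
`N / (log N)^A` is at most `Y / (log N)^(A - k)`). Please make the lemma `err_smallW` (the analogue
of `err_small`) usable for AQW. -/
def Stmt_A1W : Prop := ∀ A : ℝ, LinProp A →
  ∀ (k : ℕ) (δ : ℝ), 0 < δ → ∃ N₀ : ℕ, ∀ N ≥ N₀, ∀ U Y, RegW k N U Y →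
  ((PrW U Y).card : ℝ) * VN N ((N : ℝ) ^ (1 / 8 : ℝ)) * (A * Real.log 3 / 4 - δ)
    ≤ (S1W N U Y ((N : ℝ) ^ (1 / 8 : ℝ)) : ℝ)

/-- AQW (uses PRW and `err_smallW` of B_A1W.lean; copy of AQ.lean). -/
def Stmt_AQW : Prop := ∀ A : ℝ, LinProp A →
  ∀ (k : ℕ) (δ : ℝ), 0 < δ → ∃ N₀ : ℕ, ∀ N ≥ N₀, ∀ U Y, RegW k N U Y →
  ∑ q ∈ Qs N ((N : ℝ) ^ (1 / 8 : ℝ)) ((N : ℝ) ^ (1 / 3 : ℝ)),
      (SqW N U Y ((N : ℝ) ^ (1 / 8 : ℝ)) q : ℝ) ≤
    ((PrW U Y).card : ℝ) * VN N ((N : ℝ) ^ (1 / 8 : ℝ)) * (A * Real.log 6 / 4 + δ)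

/-- ABW (uses PRW; copy of AB.lean: the numbers `N - l`, `l ∈ [N - U - Y, N - U)`, are sieved;
bilinear Bombieri-Vinogradov on this window by subtraction, `X = N`). -/
def Stmt_ABW : Prop := ∀ A : ℝ, LinProp A →
  ∀ (k : ℕ) (δ : ℝ), 0 < δ → ∃ N₀ : ℕ, ∀ N ≥ N₀, ∀ U Y, RegW k N U Y →
  (S3W N U Y ((N : ℝ) ^ (1 / 8 : ℝ)) ((N : ℝ) ^ (1 / 3 : ℝ)) : ℝ) ≤
    (((TBW N U Y ((N : ℝ) ^ (1 / 8 : ℝ)) ((N : ℝ) ^ (1 / 3 : ℝ))).card : ℝ) * (A / 4 + δ)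
      + δ * ((PrW U Y).card : ℝ)) * VN N ((N : ℝ) ^ (1 / 8 : ℝ))

/-- XBW (uses PS; copy of XB.lean: for given `p₁ p₂` the `p₃` are in
`[(N - U - Y)/(p₁p₂), (N - U)/(p₁p₂))`, of length `Y/(p₁p₂)`, and `log ((N - U)/(p₁p₂))` is
`(1 - β₁ - β₂) log N + O(log log N)`, `1 - β₁ - β₂ ≥ 1/3`; prime number theorem with error; and
`p₁ p₂² < N`). -/
def Stmt_XBW : Prop := ∀ (k : ℕ) (δ : ℝ), 0 < δ → ∃ N₀ : ℕ, ∀ N ≥ N₀, ∀ U Y, RegW k N U Y →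
  ((TBW N U Y ((N : ℝ) ^ (1 / 8 : ℝ)) ((N : ℝ) ^ (1 / 3 : ℝ))).card : ℝ) ≤
    ((∫ β in (1 / 8 : ℝ)..(1 / 3), Real.log (2 - 3 * β) / (β * (1 - β))) + δ) *
      (Y / Real.log N)

/-- FINW (uses CIW PRW A1W AQW ABW XBW and `Stmt_VL`, `Stmt_NUM`, `LinearSieve.Stmt_Lin`; copy of
FIN.lean; the constant does not depend on `k`). -/
def Stmt_FINW : Prop := ∃ c : ℝ, 0 < c ∧ ∀ k : ℕ, ∃ N₀ : ℕ, ∀ N ≥ N₀, ∀ U Y, RegW k N U Y →
  c * (SS N * (Y / (Real.log N) ^ 2)) ≤ (Cnt2W N U Y ((N : ℝ) ^ (1 / 8 : ℝ)) : ℝ)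

open Pool.Agent.Work.MP_484fb8_nt in
/-- PRIMW (uses FINW): Chen's theorem in every subwindow `(a, a + Y]` of
`[#(n-1) + 1, #(n) - #(n-1)]`, `Y ≥ #(n) / (log #(n))^k`, in both arrangements, for every
`m ∈ ℰ_{n+1}`. (a): `U = a`. (b): `U = m - a - Y - 1`, `s = m - q`. -/
def Stmt_PRIMW : Prop := ∃ c : ℝ, 0 < c ∧ ∀ k : ℕ, ∃ n₀ : ℕ, ∀ n, n₀ ≤ n →
  ∀ m ∈ evensIn (n + 1), ∀ a Y : ℕ, prml (n - 1) ≤ a → a + Y + prml (n - 1) ≤ prml n →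
    (prml n : ℝ) ≤ Y * (Real.log (prml n)) ^ k →
    c * (SS m * (Y / (Real.log (prml n)) ^ 2)) ≤
      (((Ioc a (a + Y)).filter (fun p => p ∈ primesIn n ∧
        m - p ∈ primorialInterval n ∪ primorialInterval (n + 1) ∧
        (m - p).primeFactorsList.length ≤ 2 ∧
        ∀ q ∈ (m - p).primeFactorsList, (m : ℝ) ^ (1 / 8 : ℝ) ≤ q)).card : ℝ) ∧
    c * (SS m * (Y / (Real.log (prml n)) ^ 2)) ≤
      (((Ioc a (a + Y)).filter (fun s => s ∈ primorialInterval n ∧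
        m - s ∈ primesIn n ∪ primesIn (n + 1) ∧ s.primeFactorsList.length ≤ 2 ∧
        ∀ q ∈ s.primeFactorsList, (m : ℝ) ^ (1 / 8 : ℝ) ≤ q)).card : ℝ)

end Pool.Agent.ChenW
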