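import Pool.Agent.Work.Chen.AB
import Pool.Agent.Work.ChenW.Interface

/-!
# ABW: the switching in Chen's theorem, window (U, U + Y] (helper61)
-/

set_option autoImplicit false

namespace Pool.Agent.ChenW

open Finset Filter Pool.Agent.Chen Pool.Agent.Chen.ABp
open scoped Classical

namespace ABWx

/-- the members of `TB` not coprime to `d` -/
lemma ncop {N U Y : ℕ} {z y : ℝ} (hz : 1 < z) (hzN : (N : ℝ) ≤ z ^ 8)
    {d : ℕ} (hd : 1 ≤ d) (hdN : d ≤ N) :
    (((TBW N U Y z y).filter (fun l => ¬ l.Coprime d)).card : ℝ) ≤ 8 * (N / z) := by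
  rcases Nat.lt_or_ge 1 d with hd1 | hd1
  · have hsub : (TBW N U Y z y).filter (fun l => ¬ l.Coprime d) ⊆
        (d.primeFactors.filter (fun p : ℕ => z ≤ (p : ℝ))).biUnion
          (fun p => (Ioc 0 N).filter (fun n => p ∣ n)) := by
      intro l hl
      rw [mem_filter] at hl
      obtain ⟨hl1, hl2⟩ := hl
      unfold TBW at hl1
      rw [mem_filter, mem_Ico] at hl1
      obtain ⟨⟨-, hl3⟩, p₁, p₂, p₃, h1, h2, h3, hz1, hy1, hy2, h23, hl4⟩ := hl1
      obtain ⟨p, hp, hpl, hpd⟩ := Nat.Prime.not_coprime_iff_dvd.1 hl2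
      rw [mem_biUnion]
      have hy3 : (p₂ : ℝ) ≤ p₃ := by exact_mod_cast h23
      have hpz : z ≤ (p : ℝ) := by
        rw [hl4] at hpl
        rcases (hp.dvd_mul).1 hpl with h6 | h6
        · rcases (hp.dvd_mul).1 h6 with h7 | h7
          · rw [(Nat.prime_dvd_prime_iff_eq hp h1).1 h7]
            exact hz1
          · rw [(Nat.prime_dvd_prime_iff_eq hp h2).1 h7]
            linarith
        · rw [(Nat.prime_dvd_prime_iff_eq hp h3).1 h6]
          linarith
      refine ⟨p, ?_, ?_⟩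
      · rw [mem_filter, Nat.mem_primeFactors]
        exact ⟨⟨hp, hpd, by omega⟩, hpz⟩
      · rw [mem_filter, mem_Ioc]
        refine ⟨⟨?_, by omega⟩, hpl⟩
        rw [hl4]
        exact Nat.mul_pos (Nat.mul_pos h1.pos h2.pos) h3.pos
    have h1 : (((TBW N U Y z y).filter (fun l => ¬ l.Coprime d)).card : ℝ) ≤
        ∑ p ∈ d.primeFactors.filter (fun p : ℕ => z ≤ (p : ℝ)),
          (((Ioc 0 N).filter (fun n => p ∣ n)).card : ℝ) := by
      exact_mod_cast (card_le_card hsub).trans card_biUnion_le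
    refine h1.trans ?_
    have h2 : ∀ p ∈ d.primeFactors.filter (fun p : ℕ => z ≤ (p : ℝ)),
        (((Ioc 0 N).filter (fun n => p ∣ n)).card : ℝ) ≤ N / z := by
      intro p hp
      rw [mem_filter] at hp
      rw [Nat.Ioc_filter_dvd_card_eq_div]
      refine Nat.cast_div_le.trans ?_
      have : (0 : ℝ) ≤ N := Nat.cast_nonneg _
      exact div_le_div_of_nonneg_left this (by linarith) hp.2
    refine (sum_le_card_nsmul _ _ _ h2).trans ?_
    rw [nsmul_eq_mul]
    have h3 := Pool.Agent.Chen.VLproof.card_big hd1 hz (le_trans (by exact_mod_cast hdN) hzN)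
    have h4 : ((d.primeFactors.filter (fun p : ℕ => z ≤ (p : ℝ))).card : ℝ) ≤ 8 := by
      exact_mod_cast h3
    have h5 : 0 ≤ (N : ℝ) / z := by positivity
    exact mul_le_mul_of_nonneg_right h4 h5
  · have : d = 1 := by omega
    subst this
    have h2 : (TBW N U Y z y).filter (fun l => ¬ l.Coprime 1) = ∅ := by
      rw [filter_eq_empty_iff]
      intro l _
      simp
    rw [h2, card_empty, Nat.cast_zero]
    positivity

/-- the remainder for one `d` -/
lemma rem_le {N U Y : ℕ} {z y : ℝ} (hYN : U + Y < N) (hz : 1 < z)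
    (hzN : (N : ℝ) ≤ z ^ 8) {d : ℕ} (hd : 1 ≤ d) (hdN : d ≤ N) :
    |(((TBW N U Y z y).filter (fun l => d ∣ N - l)).card : ℝ)
        - ((TBW N U Y z y).card : ℝ) * (1 / (d.totient : ℝ))| ≤
      ‖BV.Err (Fc z y) (N - U - 1) d (N : ZMod d)‖ + ‖BV.Err (Fc z y) (N - (U + Y) - 1) d (N : ZMod d)‖
        + 1 / (d.totient : ℝ) * (8 * (N / z)) := by
  have h0 := err_sub (Fc z y) (show 1 ≤ N - (U + Y) by omega) (show N - (U + Y) ≤ N - U by omega) d
    (N : ZMod d)
  have hF : ∀ s : Finset ℕ, ∑ n ∈ s, Fc z y n = ((s.filter (Tri z y)).card : ℂ) := by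
    intro s
    rw [sum_congr rfl (fun n _ => Fc_eq z y n), sum_boole]
  have h1 : (((Ico (N - (U + Y)) (N - U)).filter (fun n : ℕ => (n : ZMod d) = (N : ZMod d))).filter
      (Tri z y)) = (TBW N U Y z y).filter (fun l => d ∣ N - l) := by
    ext n
    unfold TBW
    simp only [mem_filter, mem_Ico]
    constructor
    · rintro ⟨⟨h2, h3⟩, h4⟩
      exact ⟨⟨h2, h4⟩, (dvd_sub_iff (by omega)).2 h3⟩
    · rintro ⟨⟨h2, h4⟩, h3⟩
      exact ⟨⟨h2, (dvd_sub_iff (by omega)).1 h3⟩, h4⟩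
  have h2 : (((Ico (N - (U + Y)) (N - U)).filter (fun n : ℕ => n.Coprime d)).filter
      (Tri z y)) = (TBW N U Y z y).filter (fun l => l.Coprime d) := by
    ext n
    unfold TBW
    simp only [mem_filter]
    tauto
  rw [hF, hF, h1, h2] at h0
  have h3 : (((TBW N U Y z y).filter (fun l => l.Coprime d)).card : ℝ) =
      ((TBW N U Y z y).card : ℝ) - (((TBW N U Y z y).filter (fun l => ¬ l.Coprime d)).card : ℝ) := by
    have := card_filter_add_card_filter_not (s := TBW N U Y z y) (fun l => l.Coprime d)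
    have h4 : ((((TBW N U Y z y).filter (fun l => l.Coprime d)).card +
      ((TBW N U Y z y).filter (fun l => ¬ l.Coprime d)).card : ℕ) : ℝ) = ((TBW N U Y z y).card : ℝ) := by
      exact_mod_cast this
    push_cast at h4
    linarith
  have h4 : (((((TBW N U Y z y).filter (fun l => d ∣ N - l)).card : ℝ)
        - 1 / (d.totient : ℝ) * (((TBW N U Y z y).filter (fun l => l.Coprime d)).card : ℝ) : ℝ) : ℂ)
      = BV.Err (Fc z y) (N - U - 1) d (N : ZMod d) - BV.Err (Fc z y) (N - (U + Y) - 1) d (N : ZMod d) := by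
    rw [h0]
    push_cast
    ring
  have h5 : |((((TBW N U Y z y).filter (fun l => d ∣ N - l)).card : ℝ)
        - 1 / (d.totient : ℝ) * (((TBW N U Y z y).filter (fun l => l.Coprime d)).card : ℝ) : ℝ)| ≤
      ‖BV.Err (Fc z y) (N - U - 1) d (N : ZMod d)‖
        + ‖BV.Err (Fc z y) (N - (U + Y) - 1) d (N : ZMod d)‖ := by
    rw [← Real.norm_eq_abs, ← Complex.norm_real, h4]
    exact norm_sub_le _ _
  have h6 := ncop (U := U) (Y := Y) (y := y) hz hzN hd hdN
  have h7 : 0 ≤ 1 / (d.totient : ℝ) := by positivity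
  have h8 : 1 / (d.totient : ℝ) * (((TBW N U Y z y).filter (fun l => ¬ l.Coprime d)).card : ℝ)
      ≤ 1 / (d.totient : ℝ) * (8 * (N / z)) := mul_le_mul_of_nonneg_left h6 h7
  have h9 : 0 ≤ 1 / (d.totient : ℝ) * (((TBW N U Y z y).filter (fun l => ¬ l.Coprime d)).card : ℝ) := by
    positivity
  rw [h3] at h5
  rw [abs_le] at h5 ⊢
  constructor <;> nlinarith [h5.1, h5.2]

end ABWx


/-- **The switching**. -/
theorem p_ABW (hPR0 : Stmt_PRW) : Stmt_ABW := by
  intro A hA k δ hδ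
  obtain ⟨hA0, hlin⟩ := hA
  set δ₁ : ℝ := δ / 2 with hδ₁
  set ε : ℝ := δ / (A + δ) with hε
  set η : ℝ := δ / (2 * A + 8 * δ) with hη
  have hδ₁0 : 0 < δ₁ := by positivity
  have hε0 : 0 < ε := by positivity
  have hη0 : 0 < η := by positivity
  have hη1 : η ≤ 1 / 8 := by
    rw [hη, div_le_div_iff₀ (by positivity) (by norm_num)]
    linarith
  set θ : ℝ := 1 / 4 - η with hθ
  have hθ1 : 1 / 8 ≤ θ := by linarith
  -- the inequality between the constants
  have hconst : (A / 2 + δ₁) * (1 + ε) ≤ (A / 4 + δ) * (8 * θ) := by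
    have h1 : ε * (A / 2 + δ₁) = δ / 2 := by
      rw [hε, hδ₁]
      field_simp
    have h2 : 8 * η * (A / 4 + δ) = δ := by
      rw [hη]
      field_simp
      ring
    have h3 : (A / 4 + δ) * (8 * θ) = A / 2 + 2 * δ - 8 * η * (A / 4 + δ) := by
      rw [hθ]
      ring
    rw [h3, h2]
    have h4 : (A / 2 + δ₁) * (1 + ε) = A / 2 + δ₁ + ε * (A / 2 + δ₁) := by ring
    rw [h4, h1, hδ₁]
    linarith
  obtain ⟨ε₁, hε₁, hlin⟩ := hlin δ₁ hδ₁0
  obtain ⟨u₀, hu₀, hdens⟩ := dens ε₁ hε₁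
  set K : ℝ := (u₀ : ℝ) ^ u₀ with hK
  have hK1 : 1 ≤ K := by
    have : (1 : ℝ) ≤ u₀ := by exact_mod_cast (by omega : 1 ≤ u₀)
    exact one_le_pow₀ this
  obtain ⟨B, C, X₀, hC, hX₀, hBV⟩ := BV.main_bvbp (k + 3) 0 9 (by norm_num)
  obtain ⟨C₂, hC₂, hPHI⟩ := BV.stmt_PHI
  obtain ⟨c, hc, hVL⟩ := VN_lower
  obtain ⟨N₁, hN₁⟩ := hPR0 k (1 / 2) (by norm_num)
  obtain ⟨N₂, hN₂⟩ := VN_ratio θ hθ1 ε hε0
  have hlimz : Tendsto (fun N : ℕ => (N : ℝ) ^ (1 / 8 : ℝ)) atTop atTop :=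
    (tendsto_rpow_atTop (by norm_num)).comp tendsto_natCast_atTop_atTop
  have hliml : Tendsto (fun N : ℕ => Real.log N) atTop atTop :=
    Real.tendsto_log_atTop.comp tendsto_natCast_atTop_atTop
  obtain ⟨N₃, hN₃⟩ := eventually_atTop.1
    ((hlimz.eventually_ge_atTop 10).and ((log_pow_ev 1 B (1 / 3) (by norm_num)).and
    ((log_pow_ev K B (2 * η) (by positivity)).and
    ((log_pow_ev (8 * C₂ / (δ * c / 4)) (k + 3) (1 / 8) (by norm_num)).and
    ((hliml.eventually_ge_atTop (max 1 (2 * C / (δ * c / 4)))).and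
    ((log_pow_ev 1 k (1 / 2) (by norm_num)).and (log_pow_ev K 0 (1 / 2) (by norm_num))))))))
  refine ⟨max (max N₁ N₂) (max N₃ (max X₀ 3)), ?_⟩
  intro N hN U Y hReg
  have hNN₁ : N₁ ≤ N := (le_max_left _ _).trans ((le_max_left _ _).trans hN)
  have hNN₂ : N₂ ≤ N := (le_max_right _ _).trans ((le_max_left _ _).trans hN)
  have hNN₃ : N₃ ≤ N := (le_max_left _ _).trans ((le_max_right _ _).trans hN)
  have hNX₀ : X₀ ≤ N :=
    (le_max_left _ _).trans ((le_max_right _ _).trans ((le_max_right _ _).trans hN))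
  have hN3 : 3 ≤ N :=
    (le_max_right _ _).trans ((le_max_right _ _).trans ((le_max_right _ _).trans hN))
  obtain ⟨hz10, hl1, hl2, hl3, hl4, hl5, hl6⟩ := hN₃ N hNN₃
  have hPR := (hN₁ N hNN₁ U Y hReg).1
  have hVNr := hN₂ N hNN₂
  obtain ⟨hev, hYN0, hYl, hUl, hDl⟩ := hReg
  set z : ℝ := (N : ℝ) ^ (1 / 8 : ℝ) with hz
  set y : ℝ := (N : ℝ) ^ (1 / 3 : ℝ) with hy
  set z₂ : ℝ := (N : ℝ) ^ θ with hz₂
  have hNr : (3 : ℝ) ≤ N := by exact_mod_cast hN3
  have hN0 : (0 : ℝ) < N := by linarith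
  have hN1 : (1 : ℝ) ≤ N := by linarith
  set L : ℝ := Real.log N with hL
  have hL1 : 1 ≤ L := (le_max_left _ _).trans hl4
  have hL2 : 2 * C / (δ * c / 4) ≤ L := (le_max_right _ _).trans hl4
  have hL0 : 0 < L := by linarith
  have hY0 : (0 : ℝ) < Y := by
    by_contra h
    have : (Y : ℝ) = 0 := le_antisymm (not_lt.1 h) (Nat.cast_nonneg _)
    rw [this, zero_mul] at hYl
    linarith
  have hY1 : 1 ≤ Y := by
    have : 0 < Y := by exact_mod_cast hY0
    omega
  have hYN : U + Y < N := by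
    have h1 : (0 : ℝ) < (N : ℝ) - U - Y := by
      by_contra h
      have h2 : ((N : ℝ) - U - Y) * L ^ k ≤ 0 :=
        mul_nonpos_of_nonpos_of_nonneg (not_lt.1 h) (by positivity)
      linarith
    have h3 : ((U + Y : ℕ) : ℝ) < N := by
      push_cast
      linarith
    exact_mod_cast h3
  have hz8 : z ^ 8 = N := by
    rw [hz, ← Real.rpow_natCast, ← Real.rpow_mul hN0.le]
    norm_num
  have hzz₂ : z ≤ z₂ := Real.rpow_le_rpow_of_exponent_le hN1 hθ1
  have hzy : z ≤ y := Real.rpow_le_rpow_of_exponent_le hN1 (by norm_num)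
  have hz₂0 : 0 < z₂ := by linarith
  -- `U ≥ √N ≥ z₂`
  have hUz₂ : z₂ ≤ U := by
    have h1 : (N : ℝ) ^ (1 / 2 : ℝ) * (N : ℝ) ^ (1 / 2 : ℝ) = N := by
      rw [← Real.rpow_add hN0]
      norm_num
    have h2 : (N : ℝ) ^ (1 / 2 : ℝ) ≤ U := by
      have h3 : (N : ℝ) ≤ U * (N : ℝ) ^ (1 / 2 : ℝ) := by
        refine hUl.trans ?_
        rw [one_mul] at hl5
        exact mul_le_mul_of_nonneg_left hl5 (Nat.cast_nonneg _)
      have h4 : 0 < (N : ℝ) ^ (1 / 2 : ℝ) := by positivity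
      have h5 : (N : ℝ) ^ (1 / 2 : ℝ) * (N : ℝ) ^ (1 / 2 : ℝ) ≤ U * (N : ℝ) ^ (1 / 2 : ℝ) :=
        h1.le.trans h3
      exact le_of_mul_le_mul_right h5 h4
    refine le_trans ?_ h2
    exact Real.rpow_le_rpow_of_exponent_le hN1 (by linarith)
  -- the linear sieve
  have hsieve := (hlin (Sf N z₂) (Qf N z₂ u₀) (fun p => 1 / ((p : ℝ) - 1)) Sf_prime
    (Qf_sub N z₂ u₀) g_nonneg (g_lt_one hev) z₂ (z₂ ^ 2) (by linarith) Sf_lt
    (fun u w hu huw hwz => hdens N z₂ u w hu huw hwz)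
    (TBW N U Y z y) (fun l => N - l) (fun _ => 1) (fun _ _ => zero_le_one)
    ((TBW N U Y z y).card : ℝ) (Nat.cast_nonneg _)).1 (by nlinarith) (by
      have : 1 ≤ z₂ := by linarith
      exact pow_le_pow_right₀ this (by norm_num))
  have hlog2 : Real.log (z₂ ^ 2) / Real.log z₂ = 2 := by
    rw [Real.log_pow]
    have : Real.log z₂ ≠ 0 := (Real.log_pos (by linarith)).ne'
    field_simp
    norm_num
  rw [hlog2] at hsieve
  have hS3 : (S3W N U Y z y : ℝ) ≤
      ∑ i ∈ (TBW N U Y z y).filter (fun i => ∀ p ∈ Sf N z₂, ¬ p ∣ N - i), (1 : ℝ) := by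
    rw [sum_const, nsmul_eq_mul, mul_one]
    unfold S3W
    norm_cast
    apply card_le_card
    intro l hl
    rw [mem_filter] at hl ⊢
    refine ⟨hl.1, ?_⟩
    intro p hp hpd
    have h1 := mem_Sf.1 hp
    have h2 := (Nat.prime_dvd_prime_iff_eq h1.2.1 hl.2).1 hpd
    have h3 := hl.1
    unfold TBW at h3
    rw [mem_filter, mem_Ico] at h3
    have h4 : U < N - l := by omega
    rw [← h2] at h4
    have h5 : (U : ℝ) < p := by exact_mod_cast h4
    linarith [h1.1]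
  -- the remainder
  set Q' : ℕ := ⌊z₂ ^ 2 * K⌋₊ with hQ'
  have hz₂sq : z₂ ^ 2 = (N : ℝ) ^ (1 / 2 - 2 * η) := by
    rw [hz₂, ← Real.rpow_natCast, ← Real.rpow_mul hN0.le]
    congr 1
    rw [hθ]
    push_cast
    ring
  have hsqrt : √(N : ℝ) = (N : ℝ) ^ (1 / 2 : ℝ) := Real.sqrt_eq_rpow _
  have hlev : z₂ ^ 2 * K * L ^ B ≤ √(N : ℝ) := by
    rw [hz₂sq, hsqrt]
    calc (N : ℝ) ^ (1 / 2 - 2 * η) * K * L ^ B = (N : ℝ) ^ (1 / 2 - 2 * η) * (K * L ^ B) := by ring
      _ ≤ (N : ℝ) ^ (1 / 2 - 2 * η) * (N : ℝ) ^ (2 * η) := by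
          refine mul_le_mul_of_nonneg_left hl2 (by positivity)
      _ = (N : ℝ) ^ (1 / 2 : ℝ) := by
          rw [← Real.rpow_add hN0]
          congr 1
          ring
  have hQlev : (Q' : ℝ) ≤ √(N : ℝ) / L ^ B := by
    rw [le_div_iff₀ (by positivity)]
    refine le_trans ?_ hlev
    refine mul_le_mul_of_nonneg_right (Nat.floor_le (by positivity)) (by positivity)
  have hLB1 : 1 ≤ L ^ B := one_le_pow₀ hL1
  have hQN : Q' ≤ N := by
    have h1 : (Q' : ℝ) ≤ √(N : ℝ) := by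
      refine hQlev.trans ?_
      rw [div_le_iff₀ (by positivity)]
      have : 0 ≤ √(N : ℝ) := Real.sqrt_nonneg _
      nlinarith
    have h2 : √(N : ℝ) ≤ N := by
      rw [Real.sqrt_le_left hN0.le]
      exact le_self_pow₀ hN1 (by norm_num)
    exact_mod_cast h1.trans h2
  -- the residue classes
  set av : (q : ℕ) → ZMod q := fun q => if IsUnit ((N : ZMod q)) then (N : ZMod q) else 1 with hav
  have hav1 : ∀ q, IsUnit (av q) := by
    intro q
    rw [hav]
    simp only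
    split_ifs with h
    · exact h
    · exact isUnit_one
  have hav2 : ∀ d : ℕ, d.Coprime N → av d = (N : ZMod d) := by
    intro d hd
    rw [hav]
    simp only
    rw [if_pos ((ZMod.isUnit_iff_coprime N d).2 hd.symm)]
  -- the bilinear Bombieri-Vinogradov theorem
  have hy1 : 1 ≤ y := by linarith
  have hU : N ≤ (⌈z⌉₊ - 1) ^ 9 := by
    have h1 : z - 1 ≤ ((⌈z⌉₊ - 1 : ℕ) : ℝ) := by
      have h2 : 1 ≤ ⌈z⌉₊ := Nat.one_le_ceil_iff.2 (by linarith)
      rw [Nat.cast_sub h2, Nat.cast_one]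
      linarith [Nat.le_ceil z]
    have h3 : (z - 1) ^ 9 ≤ ((⌈z⌉₊ - 1 : ℕ) : ℝ) ^ 9 := pow_le_pow_left₀ (by linarith) h1 9
    have h4 : z ^ 8 ≤ (z - 1) ^ 9 := by
      have h5 := one_add_mul_le_pow (show (-2 : ℝ) ≤ -(1 / z) by
        have : 1 / z ≤ 1 := by rw [div_le_one (by linarith)]; linarith
        linarith) 9
      have h6 : z ^ 9 * (1 + (9 : ℕ) * -(1 / z)) = z ^ 8 * (z - 9) := by
        have : z ≠ 0 := by linarith
        field_simp
        push_cast
        ring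
      have h7 : z ^ 9 * (1 + -(1 / z)) ^ 9 = (z - 1) ^ 9 := by
        rw [← mul_pow]
        congr 1
        have : z ≠ 0 := by linarith
        field_simp
        ring
      have h8 : z ^ 9 * (1 + (9 : ℕ) * -(1 / z)) ≤ z ^ 9 * (1 + -(1 / z)) ^ 9 :=
        mul_le_mul_of_nonneg_left h5 (by positivity)
      rw [h6, h7] at h8
      have h9 : 0 ≤ z ^ 8 := by positivity
      nlinarith
    rw [hz8] at h4
    exact_mod_cast h4.trans h3
  have hV : L ^ B ≤ ((⌈y⌉₊ : ℕ) : ℝ) := by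
    rw [one_mul] at hl1
    exact hl1.trans (Nat.le_ceil y)
  have hα2 : ∀ M ≤ N, ∑ m ∈ Ioc 0 M, ‖al y m‖ ^ 2 ≤ L ^ 0 * M := by
    intro M _
    calc ∑ m ∈ Ioc 0 M, ‖al y m‖ ^ 2 ≤ ∑ m ∈ Ioc 0 M, (1 : ℝ) :=
          sum_le_sum (fun m _ => al_norm y m)
      _ = L ^ 0 * M := by simp
  have hBV2 : ∀ y' : ℕ, y' ≤ N → ∑ q ∈ Ioc 0 Q', ‖BV.Err (Fc z y) y' q (av q)‖
      ≤ C * (N / L ^ (k + 3)) := by
    intro y' hy'
    exact hBV N hNX₀ Q' (⌈z⌉₊ - 1) ⌈y⌉₊ hQlev hU hV (al y) (fun m hm => al_zero hy1 hm) hα2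
      (⌈y⌉₊ - 1) (fun _ => y') (fun _ => hy') av hav1
  -- the sum of the remainders
  have hrem : ∑ d ∈ (∏ p ∈ Sf N z₂, p).divisors.filter
        (fun d : ℕ => (d : ℝ) < z₂ ^ 2 * (∏ q ∈ Qf N z₂ u₀, q : ℕ)),
        |∑ i ∈ (TBW N U Y z y).filter (fun i => d ∣ N - i), (1 : ℝ)
          - ((TBW N U Y z y).card : ℝ) * ∏ p ∈ d.primeFactors, (1 / ((p : ℝ) - 1))|
      ≤ 2 * (C * (N / L ^ (k + 3))) + C₂ * L * (8 * (N / z)) := by
    have hin : ∀ d ∈ (∏ p ∈ Sf N z₂, p).divisors.filter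
        (fun d : ℕ => (d : ℝ) < z₂ ^ 2 * (∏ q ∈ Qf N z₂ u₀, q : ℕ)),
        d ∈ Ioc 0 Q' ∧ d ∣ ∏ p ∈ Sf N z₂, p := by
      intro d hd
      rw [mem_filter, Nat.mem_divisors] at hd
      obtain ⟨⟨h1, h2⟩, h3⟩ := hd
      refine ⟨?_, h1⟩
      rw [mem_Ioc]
      refine ⟨Nat.pos_of_ne_zero (fun h => h2 (by rw [h] at h1; exact zero_dvd_iff.1 h1)), ?_⟩
      rw [hQ']
      apply Nat.le_floor
      refine h3.le.trans ?_
      have h4 : ((∏ q ∈ Qf N z₂ u₀, q : ℕ) : ℝ) ≤ K := by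
        rw [hK]
        exact_mod_cast prod_Qf_le N z₂ u₀ (by omega)
      exact mul_le_mul_of_nonneg_left h4 (by positivity)
    set DD : Finset ℕ := (∏ p ∈ Sf N z₂, p).divisors.filter
        (fun d : ℕ => (d : ℝ) < z₂ ^ 2 * (∏ q ∈ Qf N z₂ u₀, q : ℕ)) with hDD
    calc _ ≤ ∑ d ∈ DD,
          (‖BV.Err (Fc z y) (N - U - 1) d (av d)‖ + ‖BV.Err (Fc z y) (N - (U + Y) - 1) d (av d)‖
          + 1 / (d.totient : ℝ) * (8 * (N / z))) := by
          refine sum_le_sum fun d hd => ?_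
          obtain ⟨h1, h2⟩ := hin d hd
          rw [mem_Ioc] at h1
          have h3 := ABWx.rem_le (y := y) hYN (by linarith : 1 < z) hz8.ge (d := d) (by omega)
            (h1.2.trans hQN)
          rw [hav2 d (coprime_of_mem h2), prod_g_eq (squarefree_of_mem h2), sum_const,
            nsmul_eq_mul, mul_one]
          exact h3
      _ ≤ ∑ d ∈ Ioc 0 Q', (‖BV.Err (Fc z y) (N - U - 1) d (av d)‖
          + ‖BV.Err (Fc z y) (N - (U + Y) - 1) d (av d)‖ + 1 / (d.totient : ℝ) * (8 * (N / z))) := by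
          refine sum_le_sum_of_subset_of_nonneg (fun d hd => (hin d hd).1) (fun d _ _ => ?_)
          positivity
      _ = ∑ d ∈ Ioc 0 Q', ‖BV.Err (Fc z y) (N - U - 1) d (av d)‖
          + ∑ d ∈ Ioc 0 Q', ‖BV.Err (Fc z y) (N - (U + Y) - 1) d (av d)‖
          + (∑ d ∈ Ioc 0 Q', 1 / (d.totient : ℝ)) * (8 * (N / z)) := by
          rw [sum_add_distrib, sum_add_distrib, sum_mul]
      _ ≤ C * (N / L ^ (k + 3)) + C * (N / L ^ (k + 3)) + C₂ * L * (8 * (N / z)) := by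
          have h1 := hBV2 (N - U - 1) (by omega)
          have h2 := hBV2 (N - (U + Y) - 1) (by omega)
          have h3 : ∑ d ∈ Ioc 0 Q', 1 / (d.totient : ℝ) ≤ C₂ * L := by
            refine le_trans ?_ (hPHI N (by omega))
            refine sum_le_sum_of_subset_of_nonneg (Ioc_subset_Ioc_right hQN) (fun d _ _ => ?_)
            positivity
          have h4 : 0 ≤ 8 * ((N : ℝ) / z) := by positivity
          have h5 := mul_le_mul_of_nonneg_right h3 h4
          linarith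
      _ = _ := by ring
  -- the error term is small
  have herr : 2 * (C * (N / L ^ (k + 3))) + C₂ * L * (8 * (N / z)) ≤
      δ * ((PrW U Y).card : ℝ) * VN N z := by
    have h1 : 1 / 2 * (Y / L) ≤ ((PrW U Y).card : ℝ) := by
      refine le_trans (le_of_eq ?_) hPR
      ring
    have h2 : c / L ≤ VN N z := by
      refine le_trans ?_ (hVL N hev z (by linarith))
      have h3 : Real.log z = 1 / 8 * L := by
        rw [hz, Real.log_rpow hN0]
      rw [h3]
      apply div_le_div_of_nonneg_left hc.le (by positivity)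
      linarith
    have h3 : N / L ^ k ≤ (Y : ℝ) := by
      rw [div_le_iff₀ (by positivity)]
      exact hYl
    have h4 : δ * (1 / 2 * (N / L ^ k / L)) * (c / L) ≤ δ * ((PrW U Y).card : ℝ) * VN N z := by
      have h5 : 1 / 2 * (N / L ^ k / L) ≤ ((PrW U Y).card : ℝ) := by
        refine le_trans ?_ h1
        have : N / L ^ k / L ≤ Y / L := div_le_div_of_nonneg_right h3 hL0.le
        linarith
      have h6 : 0 ≤ c / L := by positivity
      have h7 : 0 ≤ 1 / 2 * (N / L ^ k / L) := by positivity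
      exact mul_le_mul (mul_le_mul_of_nonneg_left h5 hδ.le) h2 h6 (by positivity)
    refine le_trans ?_ h4
    have h5 : δ * (1 / 2 * (N / L ^ k / L)) * (c / L) = 2 * ((δ * c / 4) * (N / L ^ (k + 2))) := by
      have : L ^ (k + 2) = L ^ k * L * L := by ring
      rw [this]
      field_simp
      ring
    rw [h5]
    have hdc : 0 < δ * c / 4 := by positivity
    have h6 : 2 * (C * (N / L ^ (k + 3))) ≤ (δ * c / 4) * (N / L ^ (k + 2)) := by
      have h7 : 2 * C ≤ (δ * c / 4) * L := by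
        rw [div_le_iff₀ hdc] at hL2
        linarith
      have h8 : 2 * (C * (N / L ^ (k + 3))) = (2 * C) * (N / L ^ (k + 3)) := by ring
      have h9 : (δ * c / 4) * (N / L ^ (k + 2)) = ((δ * c / 4) * L) * (N / L ^ (k + 3)) := by
        have : L ^ (k + 3) = L ^ (k + 2) * L := by ring
        rw [this]
        field_simp
      rw [h8, h9]
      exact mul_le_mul_of_nonneg_right h7 (by positivity)
    have h7 : C₂ * L * (8 * (N / z)) ≤ (δ * c / 4) * (N / L ^ (k + 2)) := by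
      have h8 : 8 * C₂ * L ^ (k + 3) ≤ (δ * c / 4) * z := by
        have h9 := mul_le_mul_of_nonneg_left hl3 hdc.le
        refine le_trans (le_of_eq ?_) h9
        field_simp
      have h10 : C₂ * L * (8 * (N / z)) = (8 * C₂ * L ^ (k + 3)) * (N / (z * L ^ (k + 2))) := by
        have : L ^ (k + 3) = L ^ (k + 2) * L := by ring
        rw [this]
        have : z ≠ 0 := by linarith
        field_simp
      have h11 : (δ * c / 4) * (N / L ^ (k + 2)) = ((δ * c / 4) * z) * (N / (z * L ^ (k + 2))) := by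
        have : z ≠ 0 := by linarith
        field_simp
      rw [h10, h11]
      exact mul_le_mul_of_nonneg_right h8 (by positivity)
    linarith
  -- conclusion
  have hV0 : 0 ≤ VN N z := (VN_pos hev z).le
  have hV20 : 0 ≤ VN N z₂ := (VN_pos hev z₂).le
  have hmain : ((TBW N U Y z y).card : ℝ) * (∏ p ∈ Sf N z₂, (1 - 1 / ((p : ℝ) - 1))) * (A / 2 + δ₁) ≤
      ((TBW N U Y z y).card : ℝ) * (A / 4 + δ) * VN N z := by
    have h1 : (∏ p ∈ Sf N z₂, (1 - 1 / ((p : ℝ) - 1))) = VN N z₂ := rfl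
    rw [h1]
    have h2 : VN N z₂ * (A / 2 + δ₁) ≤ (A / 4 + δ) * VN N z := by
      have hθ0 : 0 < 8 * θ := by linarith
      have h3 : VN N z₂ * (A / 2 + δ₁) * (8 * θ) ≤ (A / 4 + δ) * VN N z * (8 * θ) := by
        calc VN N z₂ * (A / 2 + δ₁) * (8 * θ) = (VN N z₂ * (8 * θ)) * (A / 2 + δ₁) := by ring
          _ ≤ ((1 + ε) * VN N z) * (A / 2 + δ₁) :=
              mul_le_mul_of_nonneg_right hVNr (by positivity)
          _ = VN N z * ((A / 2 + δ₁) * (1 + ε)) := by ring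
          _ ≤ VN N z * ((A / 4 + δ) * (8 * θ)) := mul_le_mul_of_nonneg_left hconst hV0
          _ = (A / 4 + δ) * VN N z * (8 * θ) := by ring
      exact le_of_mul_le_mul_right h3 hθ0
    have h3 : (0 : ℝ) ≤ (TBW N U Y z y).card := Nat.cast_nonneg _
    calc ((TBW N U Y z y).card : ℝ) * VN N z₂ * (A / 2 + δ₁)
        = ((TBW N U Y z y).card : ℝ) * (VN N z₂ * (A / 2 + δ₁)) := by ring
      _ ≤ ((TBW N U Y z y).card : ℝ) * ((A / 4 + δ) * VN N z) := mul_le_mul_of_nonneg_left h2 h3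
      _ = _ := by ring
  calc (S3W N U Y z y : ℝ) ≤ _ := hS3
    _ ≤ _ := hsieve
    _ ≤ ((TBW N U Y z y).card : ℝ) * (A / 4 + δ) * VN N z + δ * ((PrW U Y).card : ℝ) * VN N z :=
        add_le_add hmain (hrem.trans herr)
    _ = _ := by ring

end Pool.Agent.ChenW
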