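import Pool.Agent.Work.ChenW.B_A1W
import Pool.Agent.Work.Chen.AQ

/-!
# The sum over `q` in Chen's theorem, window `(U, U + Y]` (second copy)
-/

set_option autoImplicit false

namespace Pool.Agent.ChenW

open Finset Filter MeasureTheory Pool.Agent.Chen
open scoped Classical Topology

theorem p_AQWx (hPRW : Stmt_PRW) : Stmt_AQW := by
  intro A hLin k δ hδ
  obtain ⟨hA, hLin⟩ := hLin
  obtain ⟨ε, hε, hS⟩ := hLin (δ / 12) (by positivity)
  obtain ⟨u₀, hu₀, hd⟩ := dens ε hε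
  obtain ⟨η, hη, hη1, hη2⟩ := choose_eta A (δ / 4) (by positivity)
  have hK : (0 : ℝ) < (u₀ : ℝ) ^ u₀ := by
    have : (0 : ℝ) < u₀ := by exact_mod_cast (by omega : 0 < u₀)
    positivity
  obtain ⟨N₁, h1⟩ := err_smallW hPRW k (δ / 4) η ((u₀ : ℝ) ^ u₀) (by positivity) hη hK
  obtain ⟨N₂, h2⟩ := main_sum A (δ / 12) η hA (by positivity) hη hη1
  refine ⟨max N₁ (max N₂ 256), fun N hN U Y hR => ?_⟩
  have hN1 : N₁ ≤ N := (le_max_left _ _).trans hN
  have hN2 : N₂ ≤ N := (le_max_left _ _).trans ((le_max_right _ _).trans hN)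
  have hN3 : (256 : ℝ) ≤ N := by
    exact_mod_cast (le_max_right _ _).trans ((le_max_right _ _).trans hN)
  have hN0 : (0 : ℝ) < N := by linarith
  have hNgt : (1 : ℝ) < N := by linarith
  have hlN : 0 < Real.log N := Real.log_pos hNgt
  set z : ℝ := (N : ℝ) ^ (1 / 8 : ℝ) with hz
  set y : ℝ := (N : ℝ) ^ (1 / 3 : ℝ) with hy
  set D : ℝ := (N : ℝ) ^ (1 / 2 - η) with hD
  have hD0 : 0 < D := Real.rpow_pos_of_pos hN0 _
  have hz2 : 2 ≤ z := by
    calc (2 : ℝ) = (256 : ℝ) ^ (1 / 8 : ℝ) := by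
          rw [show (256 : ℝ) = 2 ^ (8 : ℝ) by norm_num, ← Real.rpow_mul (by norm_num)]
          norm_num
      _ ≤ _ := Real.rpow_le_rpow (by norm_num) hN3 (by norm_num)
  set X : ℝ := ((PrW U Y).card : ℝ) with hX
  set V := VN N z with hV
  have hXV : 0 ≤ X * V := mul_nonneg (Nat.cast_nonneg _) (VN_pos hR.1 z).le
  -- the bound for one `q`
  have key : ∀ q ∈ Qs N z y, (SqW N U Y z q : ℝ) ≤ X * V * ((1 / ((q : ℝ) - 1)) *
      (A / (8 * (1 / 2 - η - Real.log q / Real.log N)) + δ / 12)) +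
      ∑ d ∈ Dq N z D u₀ q, EmW N U Y (q * d) := by
    intro q hq
    obtain ⟨hqy, hqp, hqz, hqN⟩ := mem_Qs.1 hq
    have hq2 : (2 : ℝ) ≤ q := by exact_mod_cast hqp.two_le
    have hq0 : (0 : ℝ) < q := by linarith
    have hzD : z ≤ D / q := by
      rw [le_div_iff₀ hq0]
      calc z * q ≤ z * y := by gcongr
        _ = (N : ℝ) ^ (1 / 8 + 1 / 3 : ℝ) := by rw [hz, hy, ← Real.rpow_add hN0]
        _ ≤ D := Real.rpow_le_rpow_of_exponent_le hNgt.le (by linarith)
    have hDz : D / q ≤ z ^ 3 := by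
      rw [div_le_iff₀ hq0]
      calc D ≤ z ^ 4 := by
            rw [hz, ← Real.rpow_mul_natCast hN0.le]
            apply Real.rpow_le_rpow_of_exponent_le hNgt.le
            push_cast
            linarith
        _ = z ^ 3 * z := by ring
        _ ≤ z ^ 3 * q := by gcongr
    have h3 := (hS (Sf N z) (Qf N z u₀) (fun p => 1 / ((p : ℝ) - 1)) Sf_prime (Qf_sub N z u₀)
      g_nonneg (g_lt_one hR.1) z (D / q) hz2 Sf_lt (fun u w hu huw hw => hd N z u w hu huw hw)
      ((PrW U Y).filter (fun p => q ∣ N - p))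
      (fun p => N - p) (fun _ => 1) (fun _ _ => zero_le_one) (X / ((q : ℝ) - 1))
      (by apply div_nonneg (Nat.cast_nonneg _); linarith)).1 hzD hDz
    have hs : Real.log (D / q) / Real.log z = 8 * (1 / 2 - η - Real.log q / Real.log N) := by
      rw [Real.log_div hD0.ne' hq0.ne', hD, hz, Real.log_rpow hN0, Real.log_rpow hN0]
      field_simp
    rw [hs] at h3
    have h4 : ∑ i ∈ ((PrW U Y).filter (fun p => q ∣ N - p)).filter
        (fun i => ∀ p ∈ Sf N z, ¬ p ∣ N - i), (1 : ℝ) = (SqW N U Y z q : ℝ) := by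
      rw [sum_const, nsmul_eq_mul, mul_one, filter_filter]
      rfl
    rw [h4] at h3
    refine h3.trans (add_le_add (le_of_eq ?_) (le_of_eq ?_))
    · change X / ((q : ℝ) - 1) * V * _ = _
      ring
    · apply sum_congr rfl
      intro d hdd
      have h5 := Nat.dvd_of_mem_divisors (mem_filter.1 hdd).1
      have h6 : q.Coprime d := q_coprime hq (q' := q) hdd
      rw [prod_g_eq (squarefree_of_mem h5), sum_const, nsmul_eq_mul, mul_one, filter_filter]
      unfold EmW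
      have h7 : (PrW U Y).filter (fun p => q * d ∣ N - p) =
          (PrW U Y).filter (fun a => q ∣ N - a ∧ d ∣ N - a) := by
        apply filter_congr
        intro p _
        constructor
        · intro h
          exact ⟨(dvd_mul_right q d).trans h, (dvd_mul_left d q).trans h⟩
        · intro h
          exact h6.mul_dvd_of_dvd_of_dvd h.1 h.2
      rw [h7, Nat.totient_mul h6, Nat.totient_prime hqp]
      congr 1
      rw [Nat.cast_mul, Nat.cast_sub hqp.one_le, Nat.cast_one]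
      congr 1
      rw [mul_one_div, div_div]
  -- the sum of the remainders
  have hrem : ∑ q ∈ Qs N z y, ∑ d ∈ Dq N z D u₀ q, EmW N U Y (q * d) ≤ δ / 4 * (X * V) := by
    rw [sum_sigma']
    have h3 := sum_image (f := fun m => EmW N U Y m) (inj_mul (N := N) (z := z) (y := y) (D := D)
      (u₀ := u₀))
    rw [← h3]
    apply h1 N hN1 U Y hR
    intro m hm
    rw [mem_image] at hm
    obtain ⟨⟨q, d⟩, h4, rfl⟩ := hm
    rw [mem_sigma] at h4
    obtain ⟨hq, hdd⟩ := h4
    simp only at hq hdd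
    obtain ⟨hqy, hqp, hqz, hqN⟩ := mem_Qs.1 hq
    have hq0 : (0 : ℝ) < q := by exact_mod_cast hqp.pos
    have h5 := Nat.dvd_of_mem_divisors (mem_filter.1 hdd).1
    have h6 := Nat.pos_of_mem_divisors (mem_filter.1 hdd).1
    refine ⟨Nat.mul_pos hqp.pos h6, ?_, ?_⟩
    · have h7 := (mem_filter.1 hdd).2
      have h8 : ((∏ r ∈ Qf N z u₀, r : ℕ) : ℝ) ≤ (u₀ : ℝ) ^ u₀ := by
        exact_mod_cast prod_Qf_le N z u₀ (by omega)
      push_cast at h7 h8 ⊢
      calc (q : ℝ) * d < q * (D / q * ∏ r ∈ Qf N z u₀, (r : ℝ)) := by gcongr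
        _ = D * ∏ r ∈ Qf N z u₀, (r : ℝ) := by field_simp
        _ ≤ D * (u₀ : ℝ) ^ u₀ := by gcongr
    · exact Nat.Coprime.mul_left ((hqp.coprime_iff_not_dvd).2 hqN) (coprime_of_mem h5)
  calc ∑ q ∈ Qs N z y, (SqW N U Y z q : ℝ)
      ≤ ∑ q ∈ Qs N z y, (X * V * ((1 / ((q : ℝ) - 1)) *
        (A / (8 * (1 / 2 - η - Real.log q / Real.log N)) + δ / 12)) +
        ∑ d ∈ Dq N z D u₀ q, EmW N U Y (q * d)) := sum_le_sum key
    _ = X * V * (∑ q ∈ Qs N z y, (1 / ((q : ℝ) - 1)) *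
        (A / (8 * (1 / 2 - η - Real.log q / Real.log N)) + δ / 12)) +
        ∑ q ∈ Qs N z y, ∑ d ∈ Dq N z D u₀ q, EmW N U Y (q * d) := by
        rw [sum_add_distrib, mul_sum]
    _ ≤ X * V * (A * Real.log 6 / 4 + δ / 4 + 3 * (δ / 12)) + δ / 4 * (X * V) := by
        apply add_le_add _ hrem
        apply mul_le_mul_of_nonneg_left _ hXV
        exact (h2 N hN2).trans (by linarith)
    _ ≤ X * V * (A * Real.log 6 / 4 + δ) := by nlinarith

end Pool.Agent.ChenW
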