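import Pool.Agent.Work.ChenW.Interface
import Pool.Agent.Work.Chen.FIN

/-!
# Chen's theorem in a window `(U, U + Y]`: the assembly
-/

set_option autoImplicit false

namespace Pool.Agent.ChenW

open Finset Filter Pool.Agent.Chen
open scoped Classical Topology

open FINproof in
theorem p_FINW (hlin : LinearSieve.Stmt_Lin) (hCI : Stmt_CIW) (hPR : Stmt_PRW) (hVL : Stmt_VL)
    (hA1 : Stmt_A1W) (hAQ : Stmt_AQW) (hAB : Stmt_ABW) (hXB : Stmt_XBW) (hNUM : Stmt_NUM) :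
    Stmt_FINW := by
  obtain ⟨A, hA⟩ : ∃ A, LinProp A := hlin
  have hA0 : 0 < A := hA.1
  set J : ℝ := ∫ β in (1 / 8 : ℝ)..(1 / 3), Real.log (2 - 3 * β) / (β * (1 - β)) with hJdef
  have hJ0 : 0 ≤ J := by
    rw [hJdef]
    refine intervalIntegral.integral_nonneg (by norm_num) fun β hβ => ?_
    have h1 : 0 ≤ Real.log (2 - 3 * β) := Real.log_nonneg (by linarith [hβ.2])
    have h2 : 0 < β * (1 - β) := mul_pos (by linarith [hβ.1]) (by linarith [hβ.2])
    positivity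
  have hJ25 : J < 2 / 5 := hNUM.1
  set κ : ℝ := 2 * Real.log 3 - Real.log 6 - J with hκdef
  have hκ0 : 0 < κ := by have := hNUM.2; rw [hκdef]; linarith
  set δ : ℝ := min (1 / 2) (A * κ / (16 * (3 + A))) with hδdef
  have hδ0 : 0 < δ := by rw [hδdef]; exact lt_min (by norm_num) (by positivity)
  have hδ2 : δ ≤ 1 / 2 := min_le_left _ _
  have hδκ : δ * (3 + A) ≤ A * κ / 16 := by
    have h1 : δ ≤ A * κ / (16 * (3 + A)) := min_le_right _ _
    calc δ * (3 + A) ≤ A * κ / (16 * (3 + A)) * (3 + A) :=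
          mul_le_mul_of_nonneg_right h1 (by positivity)
      _ = A * κ / 16 := by field_simp
  obtain ⟨cv, hcv, N6, h6⟩ := hVL
  set c0 : ℝ := cv * (A * κ / 16) / 2 with hc0
  have hc0pos : 0 < c0 := by positivity
  refine ⟨c0 / 2, by positivity, fun k => ?_⟩
  obtain ⟨N1, h1⟩ := hA1 A hA k δ hδ0
  obtain ⟨N2, h2⟩ := hAQ A hA k δ hδ0
  obtain ⟨N3, h3⟩ := hAB A hA k δ hδ0
  obtain ⟨N4, h4⟩ := hXB k δ hδ0
  obtain ⟨N5, h5⟩ := hPR k δ hδ0
  have ev1 := log_pow_small 2 (1 / 8) (c0 / 2 / 4) (by norm_num) (by positivity)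
  have ev2 := log_pow_small (k + 2) (1 / 2) (c0 / 2 / 4) (by norm_num) (by positivity)
  have ev3 := log_pow_small k (2 / 3) 1 (by norm_num) (by norm_num)
  have ev4 : ∀ᶠ N : ℕ in atTop, (256 : ℝ) ≤ N :=
    tendsto_natCast_atTop_atTop.eventually_ge_atTop 256
  obtain ⟨N7, h7⟩ := eventually_atTop.1 (ev1.and (ev2.and (ev3.and ev4)))
  refine ⟨max N1 (max N2 (max N3 (max N4 (max N5 (max N6 N7))))), fun N hN U Y hR => ?_⟩
  simp only [ge_iff_le, max_le_iff] at hN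
  obtain ⟨hN1, hN2, hN3, hN4, hN5, hN6, hN7⟩ := hN
  obtain ⟨e1, e2, e3, e4⟩ := h7 N hN7
  have hNpos : (0 : ℝ) < N := by linarith
  have hL1 : 1 ≤ Real.log N := by
    rw [Real.le_log_iff_exp_le hNpos]
    have := Real.exp_one_lt_d9
    linarith
  set L : ℝ := Real.log N with hLdef
  have hL0 : 0 < L := by linarith
  obtain ⟨hev, hUYN, hNY, hNU, hNUY⟩ := hR
  have hR : RegW k N U Y := ⟨hev, hUYN, hNY, hNU, hNUY⟩
  have hLk : 0 < L ^ k := by positivity
  have hYpos : (0 : ℝ) < Y := by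
    by_contra hneg
    have hY0 : (Y : ℝ) ≤ 0 := by linarith
    have : (Y : ℝ) * L ^ k ≤ 0 := mul_nonpos_of_nonpos_of_nonneg hY0 hLk.le
    linarith
  have hY1 : 1 ≤ Y := by exact_mod_cast hYpos
  have hUpos : (0 : ℝ) < U := by
    by_contra hneg
    have hY0 : (U : ℝ) ≤ 0 := by linarith
    have : (U : ℝ) * L ^ k ≤ 0 := mul_nonpos_of_nonpos_of_nonneg hY0 hLk.le
    linarith
  have hU1 : 1 ≤ U := by exact_mod_cast hUpos
  have hVpos : (0 : ℝ) < (N : ℝ) - U - Y := by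
    by_contra hneg
    have hY0 : (N : ℝ) - U - Y ≤ 0 := by linarith
    have : ((N : ℝ) - U - Y) * L ^ k ≤ 0 := mul_nonpos_of_nonpos_of_nonneg hY0 hLk.le
    linarith
  have hlt : U + Y < N := by
    have : ((U + Y : ℕ) : ℝ) < N := by
      push_cast
      linarith
    exact_mod_cast this
  set z : ℝ := (N : ℝ) ^ (1 / 8 : ℝ) with hz
  set y : ℝ := (N : ℝ) ^ (1 / 3 : ℝ) with hy
  have hz0 : 0 < z := Real.rpow_pos_of_pos hNpos _
  have hz2 : 2 ≤ z := by
    have : (256 : ℝ) ^ (1 / 8 : ℝ) ≤ (N : ℝ) ^ (1 / 8 : ℝ) :=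
      Real.rpow_le_rpow (by norm_num) e4 (by norm_num)
    have h256 : (256 : ℝ) ^ (1 / 8 : ℝ) = 2 := by
      rw [show (256 : ℝ) = 2 ^ (8 : ℝ) by norm_num, ← Real.rpow_mul (by norm_num)]
      norm_num
    rw [h256] at this
    exact this
  have hzy : z ≤ y := Real.rpow_le_rpow_of_exponent_le (by linarith) (by norm_num)
  have hy3 : (N : ℝ) ≤ y ^ 3 := by
    rw [hy, ← Real.rpow_natCast, ← Real.rpow_mul hNpos.le]
    norm_num
  have hyU : y ≤ U := by
    have h8 : y * L ^ k ≤ N := by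
      calc y * L ^ k ≤ y * (1 * (N : ℝ) ^ (2 / 3 : ℝ)) := mul_le_mul_of_nonneg_left e3 (by positivity)
        _ = N := by
          rw [one_mul, hy, ← Real.rpow_add hNpos]
          norm_num
    have h9 : y * L ^ k ≤ U * L ^ k := h8.trans hNU
    exact le_of_mul_le_mul_right h9 hLk
  have hci := hCI N U Y z y hU1 hY1 hlt hz2 hzy hyU hy3
  set P : ℝ := ((PrW U Y).card : ℝ) with hP
  set V : ℝ := VN N z with hV
  have hSS := one_le_SS N
  have hVlow : cv * (SS N / L) ≤ V := h6 N hN6 hev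
  have hV0 : 0 ≤ V := le_trans (by positivity) hVlow
  have hk := key A J κ δ P V ((TBW N U Y z y).card : ℝ) (Y / L) (S1W N U Y z : ℝ)
    (∑ q ∈ Qs N z y, (SqW N U Y z q : ℝ)) (S3W N U Y z y : ℝ) hA0 hJ0 hJ25.le hκdef hδ0 hδ2 hδκ
    (by positivity) hV0 (by positivity) (h5 N hN5 U Y hR).1 (h4 N hN4 U Y hR) (h1 N hN1 U Y hR)
    (h2 N hN2 U Y hR) (h3 N hN3 U Y hR)
  -- the main term
  have hPlow : 1 / 2 * (Y / L) ≤ P := by
    refine le_trans ?_ (h5 N hN5 U Y hR).1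
    exact mul_le_mul_of_nonneg_right (by linarith) (by positivity)
  have hmain : c0 * (SS N * (Y / L ^ 2)) ≤ P * V * (A * κ / 16) := by
    have e5 : (1 / 2 * (Y / L)) * (cv * (SS N / L)) ≤ P * V :=
      mul_le_mul hPlow hVlow (by positivity) (by positivity)
    have e6 := mul_le_mul_of_nonneg_right e5 (by positivity : 0 ≤ A * κ / 16)
    refine le_trans (le_of_eq ?_) e6
    rw [hc0]
    field_simp
  -- the error term
  have herr : 2 * Y / z + √(N : ℝ) + 1 ≤ c0 / 2 * (SS N * (Y / L ^ 2)) := by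
    have hYL : 0 < (Y : ℝ) / L ^ 2 := by positivity
    have f1 : 2 * Y / z ≤ c0 / 2 / 2 * (Y / L ^ 2) := by
      rw [div_le_iff₀ hz0]
      have : L ^ 2 ≤ c0 / 2 / 4 * z := e1
      have h9 : 2 * (Y : ℝ) * L ^ 2 ≤ 2 * Y * (c0 / 2 / 4 * z) :=
        mul_le_mul_of_nonneg_left this (by positivity)
      rw [show c0 / 2 / 2 * ((Y : ℝ) / L ^ 2) * z = (2 * Y * (c0 / 2 / 4 * z)) / L ^ 2 by ring,
        le_div_iff₀ (by positivity)]
      exact h9
    have f2 : √(N : ℝ) + 1 ≤ c0 / 2 / 2 * (Y / L ^ 2) := by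
      have g1 : 1 ≤ √(N : ℝ) := by
        rw [Real.one_le_sqrt]; linarith
      have g2 : (L ^ (k + 2)) ≤ c0 / 2 / 4 * √(N : ℝ) := by
        have := e2
        rwa [← Real.sqrt_eq_rpow] at this
      have g3 : 2 * √(N : ℝ) * L ^ (k + 2) ≤ c0 / 2 / 2 * N := by
        calc 2 * √(N : ℝ) * L ^ (k + 2) ≤ 2 * √(N : ℝ) * (c0 / 2 / 4 * √(N : ℝ)) :=
              mul_le_mul_of_nonneg_left g2 (by positivity)
          _ = c0 / 2 / 2 * (√(N : ℝ) * √(N : ℝ)) := by ring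
          _ = c0 / 2 / 2 * N := by rw [Real.mul_self_sqrt hNpos.le]
      have g4 : c0 / 2 / 2 * (N : ℝ) ≤ c0 / 2 / 2 * (Y * L ^ k) :=
        mul_le_mul_of_nonneg_left hNY (by positivity)
      have g5 : 2 * √(N : ℝ) ≤ c0 / 2 / 2 * (Y / L ^ 2) := by
        rw [show c0 / 2 / 2 * ((Y : ℝ) / L ^ 2) = (c0 / 2 / 2 * Y) / L ^ 2 by ring,
          le_div_iff₀ (by positivity)]
        have g6 : 2 * √(N : ℝ) * L ^ 2 * L ^ k ≤ c0 / 2 / 2 * Y * L ^ k := by
          calc 2 * √(N : ℝ) * L ^ 2 * L ^ k = 2 * √(N : ℝ) * L ^ (k + 2) := by ring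
            _ ≤ _ := g3
            _ ≤ _ := g4
            _ = _ := by ring
        exact le_of_mul_le_mul_right g6 hLk
      linarith
    have f3 : c0 / 2 * (Y / L ^ 2) ≤ c0 / 2 * (SS N * (Y / L ^ 2)) := by
      refine mul_le_mul_of_nonneg_left ?_ (by positivity)
      nlinarith
    nlinarith
  linarith

end Pool.Agent.ChenW
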