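import Pool.Agent.Work.ChenW.Interface
import Pool.Agent.Work.Chen.PRIM

/-!
# Chen's theorem in the subwindows of the primorial windows
-/

set_option autoImplicit false

namespace Pool.Agent.ChenW

open Finset Filter Pool.Agent.Chen Pool.Agent.Work.MP_484fb8_nt
open scoped Classical Topology

open Pool.Agent.Work.MP_484fb8_nt in
/-- Chen's theorem in every subwindow `(a, a + Y]` of `ℐ_n` with `m - (a, a + Y]` in `ℐ_n ∪ ℐ_{n+1}`,
`Y ≥ #(n) / (log #(n))^k`, in both arrangements, for every `m ∈ ℰ_{n+1}`. -/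
def Stmt_PRIMW2 : Prop := ∃ c : ℝ, 0 < c ∧ ∀ k : ℕ, ∃ n₀ : ℕ, ∀ n, n₀ ≤ n →
  ∀ m ∈ evensIn (n + 1), ∀ a Y : ℕ, prml (n - 1) ≤ a → a + Y ≤ prml n + 1 →
    a + Y + prml (n - 1) < m → (prml n : ℝ) ≤ Y * (Real.log (prml n)) ^ k →
    c * (SS m * (Y / (Real.log (prml n)) ^ 2)) ≤
      (((Ioc a (a + Y)).filter (fun p => p ∈ primesIn n ∧
        m - p ∈ primorialInterval n ∪ primorialInterval (n + 1) ∧
        (m - p).primeFactorsList.length ≤ 2 ∧
        ∀ q ∈ (m - p).primeFactorsList, (m : ℝ) ^ (1 / 8 : ℝ) ≤ q)).card : ℝ) ∧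
    c * (SS m * (Y / (Real.log (prml n)) ^ 2)) ≤
      (((Ioc a (a + Y)).filter (fun s => s ∈ primorialInterval n ∧
        m - s ∈ primesIn n ∪ primesIn (n + 1) ∧ s.primeFactorsList.length ≤ 2 ∧
        ∀ q ∈ s.primeFactorsList, (m : ℝ) ^ (1 / 8 : ℝ) ≤ q)).card : ℝ)

open PRIMproof in
theorem p_PRIMW2 (hFIN : Stmt_FINW) : Stmt_PRIMW2 := by
  obtain ⟨c, hc, hF⟩ := hFIN
  refine ⟨c / 4, by positivity, fun k => ?_⟩
  obtain ⟨N₀, hN₀⟩ := hF (k + 6)
  have hev : ∀ᶠ L : ℝ in atTop, 30000 ≤ L := eventually_ge_atTop _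
  have hlog : Tendsto (fun n : ℕ => Real.log (prml n)) atTop atTop := by
    have h1 : ∀ᶠ n : ℕ in atTop, ((n : ℝ) + 1) / 4 ≤ Real.log (prml n) := by
      filter_upwards [eventually_ge_atTop 1] with n hn
      have := n_le_log n hn
      linarith
    refine tendsto_atTop_mono' _ h1 ?_
    exact (tendsto_natCast_atTop_atTop.atTop_add tendsto_const_nhds).atTop_div_const (by norm_num)
  obtain ⟨n₁, hn₁⟩ := eventually_atTop.1 (hlog.eventually hev)
  refine ⟨max n₁ (max N₀ 10), fun n hn m hm a Y ha haX haY hXY => ?_⟩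
  simp only [max_le_iff] at hn
  obtain ⟨hnn, hnN, hn10⟩ := hn
  obtain ⟨j, rfl⟩ : ∃ j, n = j + 1 := ⟨n - 1, by omega⟩
  rw [Nat.add_sub_cancel] at ha haY
  have hL := hn₁ (j + 1) hnn
  set X := prml (j + 1) with hX
  set Z := prml j with hZ
  have hXn : j + 1 + 1 ≤ X := le_prml (j + 1)
  have hZ0 : 0 < Z := prml_pos j
  set L := Real.log X with hLdef
  have hXr : (11 : ℝ) ≤ X := by exact_mod_cast (by omega : 11 ≤ X)
  have hX0 : (0 : ℝ) < X := by linarith
  have hm' := hm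
  unfold evensIn primorialInterval at hm'
  rw [mem_filter, mem_Icc, Nat.add_sub_cancel, ← hX, prml_succ, ← hX] at hm'
  obtain ⟨⟨hm1, hm2⟩, hmev⟩ := hm'
  have hp1 := nth_prime_upper (j + 1)
  have hnl := n_le_log (j + 1) (by omega)
  rw [← hX, ← hLdef] at hnl
  have hq : (Nat.nth Nat.Prime (j + 1) : ℝ) ≤ 3200 * L ^ 2 := by
    calc (Nat.nth Nat.Prime (j + 1) : ℝ) ≤ 200 * (((j + 1 : ℕ) : ℝ) + 1) ^ 2 := hp1
      _ ≤ 200 * (4 * L) ^ 2 := by gcongr
      _ = 3200 * L ^ 2 := by ring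
  have hqj : (Nat.nth Nat.Prime j : ℝ) ≤ 3200 * L ^ 2 := by
    refine le_trans ?_ hq
    exact_mod_cast (Nat.nth_monotone Nat.infinite_setOf_prime) (Nat.le_succ j)
  have hmr : (m : ℝ) ≤ X * (3200 * L ^ 2) + 1 := by
    have h1 : (m : ℝ) ≤ X * (Nat.nth Nat.Prime (j + 1) : ℝ) + 1 := by exact_mod_cast hm2
    have h2 : (X : ℝ) * (Nat.nth Nat.Prime (j + 1) : ℝ) ≤ X * (3200 * L ^ 2) :=
      mul_le_mul_of_nonneg_left hq hX0.le
    linarith
  have hL0 : 0 < L := by linarith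
  have hXZ : (X : ℝ) ≤ Z * (3200 * L ^ 2) := by
    have h1 : (X : ℝ) = Z * (Nat.nth Nat.Prime j : ℝ) := by
      rw [hX, prml_succ]
      push_cast
      rfl
    rw [h1]
    exact mul_le_mul_of_nonneg_left hqj (by positivity)
  have hmX : (X : ℝ) ≤ m := by exact_mod_cast (by omega : X ≤ m)
  have hlm : L ≤ Real.log m := Real.log_le_log hX0 hmX
  have hlmpos : 0 < Real.log m := by linarith
  have hL2 : (1 : ℝ) ≤ L ^ 2 := one_le_pow₀ (by linarith)
  have hmX4 : (m : ℝ) ≤ X * L ^ 3 := by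
    have h3 : (1 : ℝ) ≤ X * L ^ 2 := by nlinarith
    have h4 : (X : ℝ) * L ^ 2 * 30000 ≤ X * L ^ 2 * L :=
      mul_le_mul_of_nonneg_left hL (by positivity)
    nlinarith
  have hmZ : (m : ℝ) ≤ Z * L ^ 6 := by
    have h5 : (X : ℝ) * L ^ 3 ≤ Z * (3200 * L ^ 2) * L ^ 3 :=
      mul_le_mul_of_nonneg_right hXZ (by positivity)
    have h6 : (Z : ℝ) * L ^ 5 * 30000 ≤ Z * L ^ 5 * L :=
      mul_le_mul_of_nonneg_left hL (by positivity)
    have h7 : 0 ≤ (Z : ℝ) * L ^ 5 := by positivity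
    nlinarith
  have hpow : ∀ t : ℝ, (Z : ℝ) ≤ t → (m : ℝ) ≤ t * (Real.log m) ^ (k + 6) := by
    intro t ht
    have h1 : L ^ 6 ≤ (Real.log m) ^ (k + 6) := by
      calc L ^ 6 ≤ L ^ (k + 6) := pow_le_pow_right₀ (by linarith) (by omega)
        _ ≤ _ := pow_le_pow_left₀ hL0.le hlm _
    calc (m : ℝ) ≤ Z * L ^ 6 := hmZ
      _ ≤ t * (Real.log m) ^ (k + 6) :=
          mul_le_mul ht h1 (by positivity) (le_trans (by positivity) ht)
  have hYreg : (m : ℝ) ≤ Y * (Real.log m) ^ (k + 6) := by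
    calc (m : ℝ) ≤ X * L ^ 3 := hmX4
      _ ≤ (Y * L ^ k) * L ^ 3 := mul_le_mul_of_nonneg_right hXY (by positivity)
      _ = Y * L ^ (k + 3) := by ring
      _ ≤ Y * (Real.log m) ^ (k + 6) := by
          apply mul_le_mul_of_nonneg_left _ (by positivity)
          calc L ^ (k + 3) ≤ L ^ (k + 6) := pow_le_pow_right₀ (by linarith) (by omega)
            _ ≤ _ := pow_le_pow_left₀ hL0.le hlm _
  have hmN : N₀ ≤ m := by omega
  -- `log m ≤ 2 log X`
  have hlm2 : Real.log m ≤ 2 * L := by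
    have hXexp : L ^ 3 ≤ X := by
      have h1 : L ^ 4 / 24 ≤ Real.exp L := by
        have := Real.pow_div_factorial_le_exp L hL0.le 4
        norm_num [Nat.factorial] at this
        exact this
      rw [hLdef, Real.exp_log hX0, ← hLdef] at h1
      have h2 : L ^ 3 * 30000 ≤ L ^ 3 * L := mul_le_mul_of_nonneg_left hL (by positivity)
      have h3 : 0 ≤ L ^ 3 := by positivity
      nlinarith
    have h1 : (m : ℝ) ≤ X ^ 2 := by
      have := mul_le_mul_of_nonneg_left hXexp hX0.le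
      nlinarith
    calc Real.log m ≤ Real.log ((X : ℝ) ^ 2) := Real.log_le_log (by linarith) h1
      _ = 2 * L := by rw [Real.log_pow, hLdef]; norm_num
  have hSS0 : 0 ≤ SS m := by
    unfold SS
    refine prod_nonneg fun p hp => ?_
    rw [mem_filter] at hp
    have h1 : (3 : ℝ) ≤ p := by exact_mod_cast hp.2
    apply div_nonneg <;> linarith
  have hlow : c / 4 * (SS m * (Y / L ^ 2)) ≤ c * (SS m * (Y / (Real.log m) ^ 2)) := by
    have h1 : (Y : ℝ) / L ^ 2 ≤ 4 * (Y / (Real.log m) ^ 2) := by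
      rw [div_le_iff₀ (by positivity), mul_div_assoc', div_mul_eq_mul_div,
        le_div_iff₀ (by positivity)]
      have h2 : (Real.log m) ^ 2 ≤ (2 * L) ^ 2 := by gcongr
      have h3 : (Y : ℝ) * (Real.log m) ^ 2 ≤ Y * (2 * L) ^ 2 :=
        mul_le_mul_of_nonneg_left h2 (by positivity)
      nlinarith
    have h5 : SS m * (Y / L ^ 2) ≤ SS m * (4 * (Y / (Real.log m) ^ 2)) :=
      mul_le_mul_of_nonneg_left h1 hSS0
    have h6 := mul_le_mul_of_nonneg_left h5 (by positivity : 0 ≤ c / 4)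
    calc c / 4 * (SS m * (Y / L ^ 2)) ≤ _ := h6
      _ = _ := by ring
  have hZr : (Z : ℝ) ≤ a := by exact_mod_cast ha
  have hmaY : Z + 1 + (a + Y) ≤ m := by omega
  constructor
  · -- the prime in the window
    have hreg : RegW (k + 6) m a Y := by
      refine ⟨hmev, by omega, hYreg, hpow _ hZr, hpow _ ?_⟩
      have : ((Z + 1 + (a + Y) : ℕ) : ℝ) ≤ m := by exact_mod_cast hmaY
      push_cast at this
      linarith
    refine hlow.trans ((hN₀ m hmN a Y hreg).trans ?_)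
    unfold Cnt2W
    refine Nat.cast_le.2 (card_le_card fun p hp => ?_)
    unfold PrW at hp
    rw [mem_filter, mem_filter, mem_Ioc] at hp
    obtain ⟨⟨⟨hp1, hp2⟩, hpp⟩, hpl⟩ := hp
    rw [mem_filter, mem_Ioc]
    refine ⟨⟨hp1, hp2⟩, ?_, ?_, hpl⟩
    · unfold primesIn primorialInterval
      rw [mem_filter, mem_Icc, Nat.add_sub_cancel, ← hX, ← hZ]
      exact ⟨⟨by omega, by omega⟩, hpp⟩
    · unfold primorialInterval
      rw [mem_union, mem_Icc, mem_Icc, Nat.add_sub_cancel, Nat.add_sub_cancel, ← hX, ← hZ,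
        prml_succ (j + 1), ← hX]
      by_cases h : m - p ≤ X + 1
      · left
        constructor <;> omega
      · right
        constructor <;> omega
  · -- the product in the window
    set U := m - a - Y - 1 with hU
    have hUm : U + Y + 1 + a = m := by omega
    have hUmr : (U : ℝ) + Y + 1 + a = m := by exact_mod_cast hUm
    have hreg : RegW (k + 6) m U Y := by
      refine ⟨hmev, by omega, hYreg, hpow _ ?_, hpow _ ?_⟩
      · exact_mod_cast (by omega : Z ≤ U)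
      · linarith
    refine hlow.trans ((hN₀ m hmN U Y hreg).trans ?_)
    unfold Cnt2W
    refine Nat.cast_le.2 (card_le_card_of_injOn (fun q => m - q) ?_ ?_)
    · intro q hq
      unfold PrW at hq
      rw [mem_coe, mem_filter, mem_filter, mem_Ioc] at hq
      obtain ⟨⟨⟨hq1, hq2⟩, hqp⟩, hql⟩ := hq
      have hmq : m - (m - q) = q := by omega
      rw [mem_coe, mem_filter, mem_Ioc]
      show (a < m - q ∧ m - q ≤ a + Y) ∧ m - q ∈ primorialInterval (j + 1) ∧
        m - (m - q) ∈ primesIn (j + 1) ∪ primesIn (j + 1 + 1) ∧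
        (m - q).primeFactorsList.length ≤ 2 ∧
        ∀ p ∈ (m - q).primeFactorsList, (m : ℝ) ^ (1 / 8 : ℝ) ≤ p
      refine ⟨⟨by omega, by omega⟩, ?_, ?_, hql⟩
      · unfold primorialInterval
        rw [mem_Icc, Nat.add_sub_cancel, ← hX, ← hZ]
        constructor <;> omega
      · rw [hmq]
        unfold primesIn primorialInterval
        rw [mem_union, mem_filter, mem_filter, mem_Icc, mem_Icc, Nat.add_sub_cancel,
          Nat.add_sub_cancel, ← hX, ← hZ, prml_succ (j + 1), ← hX]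
        by_cases h : q ≤ X + 1
        · left
          exact ⟨⟨by omega, by omega⟩, hqp⟩
        · right
          exact ⟨⟨by omega, by omega⟩, hqp⟩
    · intro q hq q' hq' h
      unfold PrW at hq hq'
      rw [mem_coe, mem_filter, mem_filter, mem_Ioc] at hq hq'
      have h' : m - q = m - q' := h
      omega

end Pool.Agent.ChenW
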