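import Pool.Agent.Work.ChenW.Interface
import Pool.Agent.Work.SW.PNT

/-!
# PRW: the number of primes in an admissible window
-/

set_option autoImplicit false

namespace Pool.Agent.ChenW

open Finset Filter Topology Pool.Agent.Chen
open scoped Classical

/-- the logarithmic sum over the window -/
theorem PRW_theta (U Y : ℕ) : ∑ p ∈ PrW U Y, Real.log p =
    Chebyshev.theta ((U + Y : ℕ) : ℝ) - Chebyshev.theta (U : ℝ) := by
  unfold Chebyshev.theta PrW
  rw [Nat.floor_natCast, Nat.floor_natCast, sum_filter, sum_filter, sum_filter,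
    ← sum_Ioc_consecutive (fun p : ℕ => if p.Prime then Real.log p else 0) (Nat.zero_le U)
      (Nat.le_add_right U Y)]
  ring

theorem p_PRW : Stmt_PRW := by
  intro k δ hδ
  obtain ⟨C, hC, hpnt⟩ := Pool.Agent.SW.pnt (k + 1)
  set η : ℝ := min (δ / 4) (1 / 4) with hη
  have hη0 : 0 < η := by positivity
  have hη1 : η ≤ δ / 4 := min_le_left _ _
  have hη2 : η ≤ 1 / 4 := min_le_right _ _
  have hlog : Tendsto (fun N : ℕ => Real.log N) atTop atTop :=
    Real.tendsto_log_atTop.comp tendsto_natCast_atTop_atTop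
  have E1 : ∀ᶠ N : ℕ in atTop, k * Real.log (Real.log N) ≤ η * Real.log N := by
    have h1 := (Real.isLittleO_log_id_atTop.comp_tendsto hlog).bound
      (show 0 < η / (k + 1) by positivity)
    filter_upwards [h1, hlog.eventually_ge_atTop 1] with N hN hL
    simp only [Function.comp, id, Real.norm_eq_abs] at hN
    rw [abs_of_nonneg (Real.log_nonneg hL), abs_of_nonneg (by linarith)] at hN
    have h2 : (k : ℝ) * Real.log (Real.log N) ≤ k * (η / (k + 1) * Real.log N) :=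
      mul_le_mul_of_nonneg_left hN (Nat.cast_nonneg k)
    refine h2.trans ?_
    have h3 : (k : ℝ) * (η / (k + 1) * Real.log N) = (k / (k + 1)) * (η * Real.log N) := by
      field_simp
    rw [h3]
    have h4 : (k : ℝ) / (k + 1) ≤ 1 := by
      rw [div_le_one (by positivity)]
      linarith
    exact mul_le_of_le_one_left (by positivity) h4
  have E2 : ∀ᶠ N : ℕ in atTop, C * 2 ^ (k + 1) / (η / 4) ≤ Real.log N :=
    hlog.eventually_ge_atTop _
  have E3 : ∀ᶠ N : ℕ in atTop, (Real.log N) ^ (k + 1) ≤ η / 4 * Real.sqrt N := by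
    have h1 := isLittleO_log_rpow_rpow_atTop ((k + 1 : ℕ) : ℝ) (by norm_num : (0 : ℝ) < 1 / 2)
    have h2 := h1.bound (by positivity : 0 < η / 4)
    have h3 := tendsto_natCast_atTop_atTop (R := ℝ) |>.eventually h2
    filter_upwards [h3, eventually_ge_atTop 1] with N hN hN1
    have hN1' : (1 : ℝ) ≤ N := by exact_mod_cast hN1
    have hl : 0 ≤ Real.log N := Real.log_nonneg hN1'
    rw [Real.norm_of_nonneg (by positivity), Real.norm_of_nonneg (by positivity),
      Real.rpow_natCast, ← Real.sqrt_eq_rpow] at hN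
    exact hN
  obtain ⟨N₀, hN₀⟩ := eventually_atTop.1 ((E1.and E2).and (E3.and
    ((hlog.eventually_ge_atTop 1).and (eventually_ge_atTop 3))))
  refine ⟨N₀, fun N hN U Y hR => ?_⟩
  obtain ⟨⟨e1, e2⟩, e3, e4, e5⟩ := hN₀ N hN
  obtain ⟨-, hUY, hY, hU, -⟩ := hR
  set L := Real.log N with hL
  have hN3 : (3 : ℝ) ≤ N := by exact_mod_cast e5
  have hNpos : (0 : ℝ) < N := by linarith
  have hL0 : 0 < L := by linarith
  have hLk : 0 < L ^ k := by positivity
  have hs1 : 1 ≤ Real.sqrt N := by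
    rw [Real.one_le_sqrt]
    linarith
  have hsN : Real.sqrt N ≤ N := by
    have h1 := Real.mul_self_sqrt hNpos.le
    nlinarith
  have hLk1 : L ^ k ≤ L ^ (k + 1) := by
    rw [pow_succ]
    exact le_mul_of_one_le_right hLk.le e4
  have hLk2 : 2 * L ^ k ≤ N := by
    have h1 : η / 4 * Real.sqrt N ≤ 1 / 16 * Real.sqrt N :=
      mul_le_mul_of_nonneg_right (by linarith) (by positivity)
    linarith
  have hY' : (0 : ℝ) ≤ Y := Nat.cast_nonneg Y
  have hU2 : (2 : ℝ) ≤ U := by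
    have h1 : 2 * L ^ k ≤ U * L ^ k := hLk2.trans hU
    exact le_of_mul_le_mul_right h1 hLk
  have hUpos : (0 : ℝ) < U := by linarith
  have hlogU : (1 - η) * L ≤ Real.log U := by
    have h1 : L ≤ Real.log (U * L ^ k) := Real.log_le_log hNpos hU
    rw [Real.log_mul hUpos.ne' hLk.ne', Real.log_pow] at h1
    linarith
  have hVN : ((U + Y : ℕ) : ℝ) ≤ N := by exact_mod_cast hUY
  have hUV : (U : ℝ) ≤ ((U + Y : ℕ) : ℝ) := by push_cast; linarith
  have hYL : C * 2 ^ (k + 1) / L ≤ η / 4 := by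
    rw [div_le_iff₀ (by positivity)] at e2
    rw [div_le_iff₀ hL0]
    linarith
  -- the prime number theorem at the two end points
  have hpsi : ∀ X : ℕ, (U : ℝ) ≤ X → (X : ℝ) ≤ N →
      |Chebyshev.psi (X : ℝ) - X| ≤ η / 4 * Y := by
    intro X hX1 hX2
    have h1 := hpnt X (by linarith)
    have h2 : Chebyshev.psi (X : ℝ) = ∑ n ∈ Ioc 0 ⌊(X : ℝ)⌋₊, ArithmeticFunction.vonMangoldt n := rfl
    rw [h2]
    refine h1.trans ?_
    have h3 : L / 2 ≤ Real.log X := by
      have h4 : Real.log U ≤ Real.log X := Real.log_le_log hUpos hX1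
      nlinarith
    calc C * ((X : ℝ) / Real.log X ^ (k + 1)) ≤ C * ((N : ℝ) / (L / 2) ^ (k + 1)) := by gcongr
      _ = C * 2 ^ (k + 1) / L * (N / L ^ k) := by
          rw [div_pow, pow_succ L k]
          field_simp
      _ ≤ η / 4 * Y := by
          apply mul_le_mul hYL _ (by positivity) (by positivity)
          rw [div_le_iff₀ hLk]
          exact hY
  have hp1 := abs_le.1 (hpsi U le_rfl (hUV.trans hVN))
  have hp2 := abs_le.1 (hpsi (U + Y) hUV hVN)
  -- prime powers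
  have hR1 : ∀ X : ℕ, (U : ℝ) ≤ X → (X : ℝ) ≤ N →
      0 ≤ Chebyshev.psi (X : ℝ) - Chebyshev.theta (X : ℝ) ∧
      Chebyshev.psi (X : ℝ) - Chebyshev.theta (X : ℝ) ≤ η / 2 * Y := by
    intro X hX1 hX2
    refine ⟨sub_nonneg.2 (Chebyshev.theta_le_psi _), ?_⟩
    have h1 := Chebyshev.abs_psi_sub_theta_le_sqrt_mul_log (x := (X : ℝ)) (by linarith)
    refine (le_abs_self _).trans (h1.trans ?_)
    have h2 : Real.sqrt (X : ℝ) ≤ Real.sqrt N := Real.sqrt_le_sqrt hX2
    have h3 : Real.log (X : ℝ) ≤ L := Real.log_le_log (by linarith) hX2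
    have h3' : 0 ≤ Real.log (X : ℝ) := Real.log_nonneg (by linarith)
    have h4 : 2 * Real.sqrt (X : ℝ) * Real.log (X : ℝ) ≤ 2 * Real.sqrt N * L := by
      gcongr
    refine h4.trans ?_
    -- 2 √N L ≤ η/2 Y, from N ≤ Y L^k
    have h5 : 2 * Real.sqrt N * L * L ^ k ≤ η / 2 * N := by
      calc 2 * Real.sqrt N * L * L ^ k = 2 * Real.sqrt N * L ^ (k + 1) := by ring
        _ ≤ 2 * Real.sqrt N * (η / 4 * Real.sqrt N) := by gcongr
        _ = η / 2 * (Real.sqrt N * Real.sqrt N) := by ring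
        _ = η / 2 * N := by rw [Real.mul_self_sqrt hNpos.le]
    have h6 : 2 * Real.sqrt N * L * L ^ k ≤ (η / 2 * Y) * L ^ k := by
      calc _ ≤ η / 2 * N := h5
        _ ≤ η / 2 * (Y * L ^ k) := by gcongr
        _ = _ := by ring
    exact le_of_mul_le_mul_right h6 hLk
  have hr1 := hR1 U le_rfl (hUV.trans hVN)
  have hr2 := hR1 (U + Y) hUV hVN
  have hth := PRW_theta U Y
  have hcast : ((U + Y : ℕ) : ℝ) = U + Y := by push_cast; ring
  obtain ⟨V, hV⟩ : ∃ V : ℝ, V = ((U + Y : ℕ) : ℝ) := ⟨_, rfl⟩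
  rw [← hV] at hth hp2 hr2 hcast
  obtain ⟨f1, f2⟩ := hp1
  obtain ⟨f3, f4⟩ := hp2
  obtain ⟨f5, f6⟩ := hr1
  obtain ⟨f7, f8⟩ := hr2
  have hηY : 0 ≤ η * Y := by positivity
  have hsum1 : ∑ p ∈ PrW U Y, Real.log p ≤ (1 + η) * Y := by
    rw [hth]
    linarith
  have hsum2 : (1 - η) * Y ≤ ∑ p ∈ PrW U Y, Real.log p := by
    rw [hth]
    linarith
  have hup : ∑ p ∈ PrW U Y, Real.log p ≤ ((PrW U Y).card : ℝ) * L := by
    rw [← nsmul_eq_mul]
    apply sum_le_card_nsmul
    intro p hp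
    rw [PrW, mem_filter, mem_Ioc] at hp
    have h1 : (p : ℝ) ≤ N := by exact_mod_cast hp.1.2.trans hUY
    exact Real.log_le_log (by exact_mod_cast hp.2.pos) h1
  have hlow : ((PrW U Y).card : ℝ) * ((1 - η) * L) ≤ ∑ p ∈ PrW U Y, Real.log p := by
    rw [← nsmul_eq_mul]
    apply card_nsmul_le_sum
    intro p hp
    rw [PrW, mem_filter, mem_Ioc] at hp
    have h1 : (U : ℝ) ≤ p := by exact_mod_cast hp.1.1.le
    exact hlogU.trans (Real.log_le_log hUpos h1)
  constructor
  · rw [← mul_div_assoc, div_le_iff₀ hL0]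
    have h1 : (1 - δ) * (Y : ℝ) ≤ (1 - η) * Y := by
      gcongr
      linarith
    linarith
  · rw [← mul_div_assoc, le_div_iff₀ hL0]
    have h1 : ((PrW U Y).card : ℝ) * L * (1 - η) ≤ (1 + η) * Y := by
      calc _ = ((PrW U Y).card : ℝ) * ((1 - η) * L) := by ring
        _ ≤ _ := hlow.trans hsum1
    have h2 : (1 + η) * (Y : ℝ) ≤ ((1 + δ) * Y) * (1 - η) := by
      have h3 : (1 + η) ≤ (1 + δ) * (1 - η) := by nlinarith
      calc (1 + η) * (Y : ℝ) ≤ ((1 + δ) * (1 - η)) * Y := by gcongr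
        _ = _ := by ring
    have h4 : 0 < 1 - η := by linarith
    exact le_of_mul_le_mul_right (h1.trans h2) h4

end Pool.Agent.ChenW
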