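import Pool.Agent.Work.ChenW.Interface
import Pool.Agent.Work.Chen.XB

/-!
# Block XBW: the number of the products `p₁ p₂ p₃` in the window (helper12, copy of Chen/XB.lean)
-/

set_option autoImplicit false

namespace Pool.Agent.ChenW

open Finset Filter Topology ArithmeticFunction Pool.Agent.Chen

namespace XBW

open Pool.Agent.Chen.XBproof (log_nat_atTop A1s A2s bb)

/-- primes `p` with `m p` in the window -/
def CC (N U Y m : ℕ) : Finset ℕ :=
  (range N).filter (fun p => p.Prime ∧ N - (U + Y) ≤ m * p ∧ m * p < N - U)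

lemma cnt (k : ℕ) (δ : ℝ) (hδ : 0 < δ) (hδ1 : δ ≤ 1) : ∃ N₀ : ℕ, ∀ N ≥ N₀, ∀ U Y, RegW k N U Y →
    ∀ m : ℕ, 1 ≤ m → (m : ℝ) ≤ (N : ℝ) ^ (2 / 3 : ℝ) →
    ((CC N U Y m).card : ℝ) ≤ (1 + δ) * ((Y : ℝ) / m) / (Real.log N - Real.log m) := by
  obtain ⟨C, hC, hpnt⟩ := Pool.Agent.SW.pnt (k + 1)
  -- the eventual facts
  have Epow : ∀ a b : ℝ, 0 < a → 0 < b → ∀ᶠ N : ℕ in atTop,
      (Real.log N) ^ k ≤ b * (N : ℝ) ^ a := by
    intro a b ha hb
    have h1 := isLittleO_log_rpow_rpow_atTop (k : ℝ) ha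
    have h2 := h1.bound hb
    have h3 := tendsto_natCast_atTop_atTop (R := ℝ) |>.eventually h2
    filter_upwards [h3, eventually_ge_atTop 1] with N hN hN1
    have hN1' : (1 : ℝ) ≤ N := by exact_mod_cast hN1
    have hl : 0 ≤ Real.log N := Real.log_nonneg hN1'
    rw [Real.norm_of_nonneg (by positivity), Real.norm_of_nonneg (by positivity),
      Real.rpow_natCast] at hN
    exact hN
  have E1 : ∀ᶠ N : ℕ in atTop, (2 : ℝ) ≤ (N : ℝ) ^ (1 / 24 : ℝ) :=
    ((tendsto_rpow_atTop (by norm_num : (0 : ℝ) < 1 / 24)).comp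
      tendsto_natCast_atTop_atTop).eventually_ge_atTop 2
  have E5 := Epow (1 / 24) 1 (by norm_num) one_pos
  have E6 := Epow (δ / 12) 1 (by positivity) one_pos
  have E2 : ∀ᶠ N : ℕ in atTop, 2 * C * 4 ^ (k + 1) / (δ / 8) ≤ Real.log N :=
    log_nat_atTop.eventually_ge_atTop _
  have E3 := Epow (1 / 3) (δ / 8) (by norm_num) (by positivity)
  obtain ⟨N₀, hN₀⟩ := eventually_atTop.1 (((E1.and E2).and (E3.and (E5.and E6))).and
    (eventually_ge_atTop 3))
  refine ⟨N₀, fun N hN U Y hR m hm hmN => ?_⟩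
  obtain ⟨⟨⟨e1, e2⟩, e3, e6, e7⟩, e5⟩ := hN₀ N hN
  obtain ⟨-, hUY, hY2, -, hV⟩ := hR
  have hNpos : (0 : ℝ) < N := by exact_mod_cast (by omega : 0 < N)
  have hN3 : (3 : ℝ) ≤ N := by exact_mod_cast e5
  have hL : 0 < Real.log N := Real.log_pos (by linarith)
  have hm0 : (0 : ℝ) < m := by exact_mod_cast hm
  set L := Real.log N with hLdef
  -- powers
  have hNthird : (N : ℝ) ^ (1 / 3 : ℝ) ≤ N / m := by
    rw [le_div_iff₀ hm0]
    calc (N : ℝ) ^ (1 / 3 : ℝ) * m ≤ (N : ℝ) ^ (1 / 3 : ℝ) * (N : ℝ) ^ (2 / 3 : ℝ) := by gcongr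
      _ = N := by
        rw [← Real.rpow_add hNpos]; norm_num
  rw [one_mul] at e6 e7
  have hLk : 0 < L ^ k := by positivity
  have h14 : (N : ℝ) ^ (1 / 4 : ℝ) * 2 ≤ (N : ℝ) ^ (1 / 3 : ℝ) / L ^ k := by
    rw [le_div_iff₀ hLk]
    calc (N : ℝ) ^ (1 / 4 : ℝ) * 2 * L ^ k
        ≤ (N : ℝ) ^ (1 / 4 : ℝ) * (N : ℝ) ^ (1 / 24 : ℝ) * (N : ℝ) ^ (1 / 24 : ℝ) := by gcongr
      _ = (N : ℝ) ^ (1 / 3 : ℝ) := by
        rw [← Real.rpow_add hNpos, ← Real.rpow_add hNpos]; norm_num
  have hone : (2 : ℝ) ≤ (N : ℝ) ^ (1 / 4 : ℝ) :=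
    e1.trans (Real.rpow_le_rpow_of_exponent_le (by linarith) (by norm_num))
  have hUY' : (U : ℝ) + Y ≤ N := by exact_mod_cast hUY
  have hcast1 : ((N - U : ℕ) : ℝ) = N - U := by
    rw [Nat.cast_sub (by omega)]
  have hcast2 : ((N - (U + Y) : ℕ) : ℝ) = N - U - Y := by
    rw [Nat.cast_sub hUY]; push_cast; ring
  have hY0 : (0 : ℝ) ≤ Y := Nat.cast_nonneg _
  have hU0 : (0 : ℝ) ≤ U := Nat.cast_nonneg _
  have hVlow : (N : ℝ) / L ^ k ≤ N - U - Y := by
    rw [div_le_iff₀ hLk]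
    exact hV
  set X1 : ℝ := (N - U) / m with hX1
  set X0 : ℝ := (N - U - Y) / m - 1 with hX0
  have hX0a : (N : ℝ) ^ (1 / 4 : ℝ) ≤ X0 := by
    have h1 : (N : ℝ) / m / L ^ k ≤ (N - U - Y) / m := by
      rw [div_right_comm]
      gcongr
    have h2 : (N : ℝ) ^ (1 / 4 : ℝ) * 2 ≤ (N : ℝ) / m / L ^ k :=
      h14.trans (by gcongr)
    rw [hX0]
    linarith
  have hX01 : X0 ≤ X1 := by
    rw [hX0, hX1]
    have : (N - U - Y : ℝ) / m ≤ (N - U) / m :=
      div_le_div_of_nonneg_right (by linarith) hm0.le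
    linarith
  have hX1N : X1 ≤ N / m := by
    rw [hX1]; gcongr; linarith
  have hlX0 : L / 4 ≤ Real.log X0 := by
    have h1 : Real.log ((N : ℝ) ^ (1 / 4 : ℝ)) ≤ Real.log X0 :=
      Real.log_le_log (by positivity) hX0a
    rw [Real.log_rpow hNpos] at h1
    linarith
  have hlX1 : L / 4 ≤ Real.log X1 := hlX0.trans (Real.log_le_log (by linarith) hX01)
  have herr : ∀ X : ℝ, X0 ≤ X → X ≤ X1 →
      C * (X / (Real.log X) ^ (k + 1)) ≤ δ / 16 * (Y / m) := by
    intro X hXa hXb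
    have h1 : L / 4 ≤ Real.log X := hlX0.trans (Real.log_le_log (by linarith) hXa)
    have h2 : X / (Real.log X) ^ (k + 1) ≤ (N / m) / (L / 4) ^ (k + 1) := by
      have : X ≤ N / m := hXb.trans hX1N
      gcongr
    have h3 : (N : ℝ) / m ≤ Y / m * L ^ k := by
      rw [div_mul_eq_mul_div]
      gcongr
    have h4 : (N / m) / (L / 4) ^ (k + 1) ≤ (Y / m) * 4 ^ (k + 1) / L := by
      rw [div_pow, div_div_eq_mul_div, div_le_div_iff₀ (by positivity) hL]
      calc (N : ℝ) / m * 4 ^ (k + 1) * L ≤ (Y / m * L ^ k) * 4 ^ (k + 1) * L := by gcongr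
        _ = Y / m * 4 ^ (k + 1) * L ^ (k + 1) := by ring
    have h5 : 2 * C * 4 ^ (k + 1) ≤ L * (δ / 8) := by
      rwa [div_le_iff₀ (by positivity)] at e2
    calc C * (X / (Real.log X) ^ (k + 1)) ≤ C * ((Y / m) * 4 ^ (k + 1) / L) :=
          mul_le_mul_of_nonneg_left (h2.trans h4) hC.le
      _ = (Y / m) * (2 * C * 4 ^ (k + 1)) / (2 * L) := by
          field_simp
      _ ≤ (Y / m) * (L * (δ / 8)) / (2 * L) := by gcongr
      _ = δ / 16 * (Y / m) := by
          field_simp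
          ring
  have hp1 := hpnt X1 (by linarith)
  have hp0 := hpnt X0 (by linarith)
  rw [abs_le] at hp1 hp0
  have hr1 := herr X1 hX01 le_rfl
  have hr0 := herr X0 le_rfl hX01
  -- one
  have hone' : 1 ≤ δ / 8 * (Y / m) := by
    have h1 : (N : ℝ) / m ≤ Y / m * L ^ k := by
      rw [div_mul_eq_mul_div]
      gcongr
    have h2 : L ^ k ≤ δ / 8 * (N / m) := e3.trans (by gcongr)
    have h3 : L ^ k ≤ (δ / 8 * (Y / m)) * L ^ k := by
      calc L ^ k ≤ δ / 8 * (N / m) := h2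
        _ ≤ δ / 8 * (Y / m * L ^ k) := by gcongr
        _ = _ := by ring
    have h4 : 0 < L ^ k := by positivity
    by_contra h5
    push Not at h5
    nlinarith
  -- the sum of Λ over the window
  have hfl : ⌊X0⌋₊ ≤ ⌊X1⌋₊ := Nat.floor_mono hX01
  have hsplit : ∑ n ∈ Ioc 0 ⌊X1⌋₊, Λ n = ∑ n ∈ Ioc 0 ⌊X0⌋₊, Λ n + ∑ n ∈ Ioc ⌊X0⌋₊ ⌊X1⌋₊, Λ n := by
    rw [← sum_union, Ioc_union_Ioc_eq_Ioc (Nat.zero_le _) hfl]
    rw [Finset.disjoint_left]
    intro a ha hb
    rw [mem_Ioc] at ha hb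
    omega
  have hwin : ∑ n ∈ Ioc ⌊X0⌋₊ ⌊X1⌋₊, Λ n ≤ (1 + δ / 4) * (Y / m) := by
    have h1 : X1 - X0 = Y / m + 1 := by
      rw [hX1, hX0]
      field_simp
      ring
    linarith [hp1.2, hp0.1]
  -- comparison
  have hlm : Real.log m ≤ 2 / 3 * L := by
    have h1 := Real.log_le_log hm0 hmN
    rwa [Real.log_rpow hNpos] at h1
  have hLm : L / 3 ≤ L - Real.log m := by linarith
  have hlow : ((CC N U Y m).card : ℝ) * ((1 - δ / 4) * (L - Real.log m))
      ≤ ∑ n ∈ Ioc ⌊X0⌋₊ ⌊X1⌋₊, Λ n := by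
    have h1 : CC N U Y m ⊆ Ioc ⌊X0⌋₊ ⌊X1⌋₊ := by
      intro p hp
      simp only [CC, mem_filter, mem_range] at hp
      obtain ⟨-, -, hpa, hpb⟩ := hp
      have hpa' : ((N - (U + Y) : ℕ) : ℝ) ≤ m * p := by exact_mod_cast hpa
      have hpb' : (m * p : ℝ) < ((N - U : ℕ) : ℝ) := by exact_mod_cast hpb
      rw [hcast2] at hpa'
      rw [hcast1] at hpb'
      rw [mem_Ioc]
      constructor
      · rw [Nat.floor_lt (by linarith)]
        rw [hX0]
        have : (N - U - Y : ℝ) / m ≤ p := by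
          rw [div_le_iff₀ hm0]; linarith
        linarith
      · apply Nat.le_floor
        rw [hX1, le_div_iff₀ hm0]
        linarith
    refine le_trans ?_ (sum_le_sum_of_subset_of_nonneg h1 fun i _ _ => vonMangoldt_nonneg)
    rw [← nsmul_eq_mul]
    refine card_nsmul_le_sum _ _ _ fun p hp => ?_
    simp only [CC, mem_filter, mem_range] at hp
    obtain ⟨-, hpp, hpa, -⟩ := hp
    have hpa' : ((N - (U + Y) : ℕ) : ℝ) ≤ m * p := by exact_mod_cast hpa
    rw [hcast2] at hpa'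
    rw [vonMangoldt_apply_prime hpp]
    have hpp0 : (0 : ℝ) < p := by exact_mod_cast hpp.pos
    have h2 : Real.log (N / L ^ k) ≤ Real.log (m * p) := by
      refine Real.log_le_log (by positivity) ?_
      linarith
    rw [Real.log_div hNpos.ne' hLk.ne', Real.log_mul hm0.ne' hpp0.ne'] at h2
    have h3 : Real.log (L ^ k) ≤ δ / 12 * L := by
      have h := Real.log_le_log hLk e7
      rw [Real.log_rpow hNpos] at h
      exact h
    have h4 : δ / 12 * L ≤ δ / 4 * (L - Real.log m) := by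
      have h40 : δ / 12 * L = δ / 4 * (L / 3) := by ring
      rw [h40]
      exact mul_le_mul_of_nonneg_left hLm (by positivity)
    have h50 : (1 - δ / 4) * (L - Real.log m) = (L - Real.log m) - δ / 4 * (L - Real.log m) := by
      ring
    rw [h50]
    clear hp1 hp0 hr1 hr0 herr hone' hwin hsplit hfl h1
    linarith only [h2, h3, h4]
  have hpos : 0 < L - Real.log m := by linarith
  rw [le_div_iff₀ hpos]
  have hYm : 0 ≤ (Y : ℝ) / m := by positivity
  have hfin : ((CC N U Y m).card : ℝ) * ((1 - δ / 4) * (L - Real.log m)) ≤ (1 + δ / 4) * (Y / m) :=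
    hlow.trans hwin
  have hd : (0 : ℝ) < 1 - δ / 4 := by linarith
  have h9 : (1 + δ / 4) ≤ (1 + δ) * (1 - δ / 4) := by nlinarith
  have h10 : (1 + δ / 4) * (Y / m) ≤ (1 + δ) * (1 - δ / 4) * (Y / m) := by gcongr
  have h11 : (1 - δ / 4) * (((CC N U Y m).card : ℝ) * (L - Real.log m)) ≤
      (1 - δ / 4) * ((1 + δ) * (Y / m)) := by
    calc (1 - δ / 4) * (((CC N U Y m).card : ℝ) * (L - Real.log m))
        = ((CC N U Y m).card : ℝ) * ((1 - δ / 4) * (L - Real.log m)) := by ring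
      _ ≤ (1 + δ / 4) * (Y / m) := hfin
      _ ≤ (1 + δ) * (1 - δ / 4) * (Y / m) := h10
      _ = (1 - δ / 4) * ((1 + δ) * (Y / m)) := by ring
  exact le_of_mul_le_mul_left h11 hd

open scoped Classical in
/-- counting the triples -/
lemma card_TB (N U Y : ℕ) (hN : 3 ≤ N) :
    (TBW N U Y ((N : ℝ) ^ (1 / 8 : ℝ)) ((N : ℝ) ^ (1 / 3 : ℝ))).card ≤
      ∑ p ∈ A1s N, ∑ q ∈ A2s N (bb N p), (CC N U Y (p * q)).card := by
  have hNpos : (0 : ℝ) < N := by exact_mod_cast (by omega : 0 < N)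
  have hN3 : (3 : ℝ) ≤ N := by exact_mod_cast hN
  have hL : 0 < Real.log N := Real.log_pos (by linarith)
  have hsub : TBW N U Y ((N : ℝ) ^ (1 / 8 : ℝ)) ((N : ℝ) ^ (1 / 3 : ℝ)) ⊆
      (A1s N).biUnion fun p => (A2s N (bb N p)).biUnion fun q =>
        (CC N U Y (p * q)).image fun s => p * q * s := by
    intro l hl
    simp only [TBW, mem_filter, mem_Ico] at hl
    obtain ⟨⟨hl1, hl2⟩, p, q, s, hp, hq, hs, hp1, hp2, hq1, hqs, rfl⟩ := hl
    have hp0 : (0 : ℝ) < p := by exact_mod_cast hp.pos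
    have hq0 : (0 : ℝ) < q := by exact_mod_cast hq.pos
    simp only [mem_biUnion, mem_image]
    refine ⟨p, ?_, q, ?_, s, ?_, rfl⟩
    · simp only [A1s, mem_filter, mem_range, Nat.lt_ceil]
      exact ⟨hp2, hp, hp1⟩
    · simp only [A2s, mem_filter, mem_range, Nat.lt_ceil]
      refine ⟨?_, hq, hq1⟩
      have h1 : p * q * q < N := by
        calc p * q * q ≤ p * q * s := Nat.mul_le_mul_left _ hqs
          _ < N - U := hl2
          _ ≤ N := Nat.sub_le _ _
      have h2 : (p * q * q : ℝ) < N := by exact_mod_cast h1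
      have h3 : Real.log p + 2 * Real.log q < Real.log N := by
        have := Real.log_lt_log (by positivity) h2
        rw [Real.log_mul (by positivity) hq0.ne', Real.log_mul hp0.ne' hq0.ne'] at this
        linarith
      rw [← Real.log_lt_log_iff hq0 (by positivity), Real.log_rpow hNpos, bb]
      have h4 : (1 - Real.log p / Real.log N) / 2 * Real.log N = (Real.log N - Real.log p) / 2 := by
        field_simp
      rw [h4]
      linarith
    · simp only [CC, mem_filter, mem_range]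
      refine ⟨?_, hs, hl1, hl2⟩
      have h1 : s ≤ p * q * s := Nat.le_mul_of_pos_left _ (Nat.mul_pos hp.pos hq.pos)
      omega
  refine (card_le_card hsub).trans (card_biUnion_le.trans (sum_le_sum fun p _ => ?_))
  exact card_biUnion_le.trans (sum_le_sum fun q _ => card_image_le)

end XBW

open XBproof in
open XBW in
theorem p_XBW (hPS : Stmt_PS) : Stmt_XBW := by
  intro k δ hδ
  obtain ⟨C, hC, hps⟩ := hPS
  set J : ℝ := ∫ β in (1 / 8 : ℝ)..(1 / 3), Real.log (2 - 3 * β) / (β * (1 - β)) with hJ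
  have hJ0 : 0 ≤ J := by
    rw [hJ]
    refine intervalIntegral.integral_nonneg (by norm_num) fun t ht => ?_
    have h1 : 0 ≤ Real.log (2 - 3 * t) := Real.log_nonneg (by linarith [ht.2])
    have h2 : 0 < t * (1 - t) := mul_pos (by linarith [ht.1]) (by linarith [ht.2])
    exact div_nonneg h1 h2.le
  -- the parameter of cnt
  set η : ℝ := min 1 (δ / (2 * (J + 1))) with hη
  have hη0 : 0 < η := by positivity
  have hη1 : η ≤ 1 := min_le_left _ _
  have hη2 : η * (J + 1) ≤ δ / 2 := by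
    have : η ≤ δ / (2 * (J + 1)) := min_le_right _ _
    rw [le_div_iff₀ (by positivity)] at this
    linarith
  obtain ⟨N₁, hN₁⟩ := XBW.cnt k η hη0 hη1
  -- error terms
  set K : ℝ := 8 * C + 9 * C * (2 + 8 * C) with hK
  obtain ⟨N₂, hN₂⟩ := eventually_atTop.1 (log_nat_atTop.eventually_ge_atTop
    (max 1 (K / (min 1 (δ / 4)))))
  obtain ⟨N₃, hN₃⟩ := eventually_atTop.1 (log_nat_atTop.eventually_ge_atTop (8 * Real.log 2))
  refine ⟨max (max N₁ N₂) (max N₃ 3), fun N hN U Y hR => ?_⟩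
  have hNa : N₁ ≤ N := le_trans (le_trans (le_max_left _ _) (le_max_left _ _)) hN
  have hNb : N₂ ≤ N := le_trans (le_trans (le_max_right _ _) (le_max_left _ _)) hN
  have hNc : N₃ ≤ N := le_trans (le_trans (le_max_left _ _) (le_max_right _ _)) hN
  have hN3 : 3 ≤ N := le_trans (le_trans (le_max_right _ _) (le_max_right _ _)) hN
  have hlK := hN₂ N hNb
  have hl8 := hN₃ N hNc
  set L := Real.log N with hL
  have hNpos : (0 : ℝ) < N := by exact_mod_cast (by omega : 0 < N)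
  have hN3' : (3 : ℝ) ≤ N := by exact_mod_cast hN3
  have hL1 : 1 ≤ L := (le_max_left _ _).trans hlK
  have hL0 : 0 < L := by linarith
  have hKL : K / L ≤ min 1 (δ / 4) := by
    have h1 : K / (min 1 (δ / 4)) ≤ L := (le_max_right _ _).trans hlK
    rw [div_le_iff₀ (by positivity)] at h1
    rw [div_le_iff₀ hL0]
    linarith
  obtain ⟨-, hUY, hY2, -, hV⟩ := id hR
  have hYpos : (0 : ℝ) < Y := by
    by_contra h
    have h1 : (Y : ℝ) = 0 := le_antisymm (not_lt.1 h) (Nat.cast_nonneg _)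
    rw [h1, zero_mul] at hY2
    linarith
  have hYn : 1 ≤ Y := by
    have : 0 < Y := by exact_mod_cast hYpos
    omega
  -- powers of `N`
  have h8 : (2 : ℝ) ≤ (N : ℝ) ^ (1 / 8 : ℝ) := by
    rw [← Real.log_le_log_iff (by norm_num) (by positivity), Real.log_rpow hNpos]
    linarith
  have h3 : (2 : ℝ) ≤ (N : ℝ) ^ (1 / 3 : ℝ) :=
    h8.trans (Real.rpow_le_rpow_of_exponent_le (by linarith) (by norm_num))
  -- bound for one pair
  have hpair : ∀ p ∈ A1s N, ∀ q ∈ A2s N (bb N p), ((XBW.CC N U Y (p * q)).card : ℝ) ≤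
      (1 + η) * (Y / L) * ((1 / p) * ((1 / (1 - Real.log p / L - Real.log q / L)) / q)) := by
    intro p hp q hq
    have hβ := beta_mem hN3 hp
    simp only [A1s, mem_filter, mem_range, Nat.lt_ceil] at hp
    simp only [A2s, mem_filter, mem_range, Nat.lt_ceil] at hq
    have hp0 : (0 : ℝ) < p := by exact_mod_cast hp.2.1.pos
    have hq0 : (0 : ℝ) < q := by exact_mod_cast hq.2.1.pos
    have hlq : Real.log q ≤ (L - Real.log p) / 2 := by
      have h1 := Real.log_le_log hq0 hq.1.le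
      rw [Real.log_rpow hNpos, bb] at h1
      have h4 : (1 - Real.log p / Real.log N) / 2 * Real.log N = (Real.log N - Real.log p) / 2 := by
        have : Real.log N ≠ 0 := hL0.ne'
        field_simp
      rw [h4] at h1
      exact h1
    have hlp : Real.log p ≤ L / 3 := by
      have := hβ.2
      rw [div_le_iff₀ hL0] at this
      linarith
    have hm : ((p * q : ℕ) : ℝ) ≤ (N : ℝ) ^ (2 / 3 : ℝ) := by
      push_cast
      rw [← Real.log_le_log_iff (by positivity) (by positivity), Real.log_rpow hNpos,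
        Real.log_mul hp0.ne' hq0.ne']
      linarith
    have h1 := hN₁ N hNa U Y hR (p * q) (Nat.mul_pos hp.2.1.pos hq.2.1.pos) hm
    refine h1.trans (le_of_eq ?_)
    push_cast
    rw [Real.log_mul hp0.ne' hq0.ne']
    have h2 : 0 < L - Real.log p - Real.log q := by
      have : 0 ≤ Real.log p := Real.log_nonneg (by exact_mod_cast hp.2.1.pos)
      linarith
    have h5 : 1 - Real.log p / L - Real.log q / L = (L - Real.log p - Real.log q) / L := by
      field_simp
    rw [h5]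
    have h6 : L - (Real.log p + Real.log q) = L - Real.log p - Real.log q := by ring
    rw [← hL, h6]
    have n1 := h2.ne'
    have n2 := hL0.ne'
    field_simp
  -- the inner sum
  have hinner : ∀ p ∈ A1s N, ∑ q ∈ A2s N (bb N p),
      ((1 / (1 - Real.log p / L - Real.log q / L)) / q) ≤
      Real.log (2 - 3 * (Real.log p / L)) / (1 - Real.log p / L) + 9 * C / L := by
    intro p hp
    have hβ := beta_mem hN3 hp
    rw [← hL] at hβ
    set β := Real.log p / L with hβd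
    have hbe : bb N p = (1 - β) / 2 := rfl
    have hmono : MonotoneOn (fun t : ℝ => 1 / (1 - β - t)) (Set.Icc (1 / 3) ((1 - β) / 2)) := by
      intro s hs t ht hst
      simp only
      apply one_div_le_one_div_of_le
      · linarith [ht.2, hβ.2]
      · linarith
    have hbd : ∀ t ∈ Set.Icc (1 / 3 : ℝ) ((1 - β) / 2), 0 ≤ 1 / (1 - β - t) ∧
        1 / (1 - β - t) ≤ 3 := by
      intro t ht
      have h1 : (1 : ℝ) / 3 ≤ 1 - β - t := by linarith [ht.2, hβ.2]
      constructor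
      · apply div_nonneg <;> linarith
      · rw [div_le_iff₀ (by linarith)]
        linarith
    have h1 := hps N (1 / 3) ((1 - β) / 2) 3 (by linarith) (by norm_num)
      (by linarith [hβ.2]) h3 (fun t => 1 / (1 - β - t)) (Or.inl hmono) hbd
    have h2 := (abs_le.1 h1).2
    have h4 : ∫ t in (1 / 3 : ℝ)..((1 - β) / 2), (1 / (1 - β - t)) / t =
        Real.log (2 - 3 * β) / (1 - β) := by
      rw [inner_int (1 - β) (by linarith [hβ.2])]
      congr 2
      ring
    rw [h4] at h2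
    have h5 : C * 3 / (1 / 3 * L) = 9 * C / L := by
      field_simp
      ring
    rw [← hL, h5] at h2
    have h6 : A2s N (bb N p) = (range ⌈(N : ℝ) ^ ((1 - β) / 2)⌉₊).filter
        (fun p : ℕ => p.Prime ∧ (N : ℝ) ^ (1 / 3 : ℝ) ≤ (p : ℝ)) := rfl
    rw [h6]
    linarith
  -- the outer sums
  have hout := hps N (1 / 8) (1 / 3) 1 (by linarith) (by norm_num) (by norm_num) h8
    (fun t => Real.log (2 - 3 * t) / (1 - t)) (Or.inr anti_outer) outer_bd
  have hone := hps N (1 / 8) (1 / 3) 1 (by linarith) (by norm_num) (by norm_num) h8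
    (fun _ => 1) (Or.inl fun _ _ _ _ _ => le_rfl) (fun _ _ => ⟨zero_le_one, le_rfl⟩)
  have hint1 : ∫ t in (1 / 8 : ℝ)..(1 / 3), Real.log (2 - 3 * t) / (1 - t) / t = J := by
    rw [hJ]
    refine intervalIntegral.integral_congr fun t _ => ?_
    show Real.log (2 - 3 * t) / (1 - t) / t = Real.log (2 - 3 * t) / (t * (1 - t))
    rw [div_div, mul_comm t]
  have hint2 : ∫ t in (1 / 8 : ℝ)..(1 / 3), 1 / t ≤ 2 := by
    rw [integral_one_div_of_pos (by norm_num) (by norm_num)]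
    have h1 : (1 / 3 : ℝ) / (1 / 8) = 8 / 3 := by norm_num
    rw [h1]
    have := Real.log_le_sub_one_of_pos (by norm_num : (0 : ℝ) < 8 / 3)
    linarith
  have hc8 : C * 1 / (1 / 8 * L) = 8 * C / L := by
    field_simp
  rw [← hL, hc8] at hout hone
  rw [hint1] at hout
  have ho1 := (abs_le.1 hout).2
  have ho2 := (abs_le.1 hone).2
  -- conclusion
  have hcard := XBW.card_TB N U Y hN3
  have hsum : ((TBW N U Y ((N : ℝ) ^ (1 / 8 : ℝ)) ((N : ℝ) ^ (1 / 3 : ℝ))).card : ℝ) ≤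
      ∑ p ∈ A1s N, ∑ q ∈ A2s N (bb N p), ((XBW.CC N U Y (p * q)).card : ℝ) := by
    exact_mod_cast hcard
  refine hsum.trans ?_
  have hYL : 0 < (Y : ℝ) / L := by positivity
  have hstep : ∑ p ∈ A1s N, ∑ q ∈ A2s N (bb N p), ((XBW.CC N U Y (p * q)).card : ℝ) ≤
      (1 + η) * (Y / L) * (∑ p ∈ A1s N, (Real.log (2 - 3 * (Real.log p / L)) / (1 - Real.log p / L)) / p
        + 9 * C / L * ∑ p ∈ A1s N, 1 / (p : ℝ)) := by
    rw [mul_sum, ← sum_add_distrib, mul_sum]
    refine sum_le_sum fun p hp => ?_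
    have hp0 : (0 : ℝ) < p := by
      have := (mem_filter.1 hp).2.1.pos
      exact_mod_cast this
    calc ∑ q ∈ A2s N (bb N p), ((XBW.CC N U Y (p * q)).card : ℝ)
        ≤ ∑ q ∈ A2s N (bb N p), (1 + η) * (Y / L) *
            ((1 / p) * ((1 / (1 - Real.log p / L - Real.log q / L)) / q)) :=
          sum_le_sum fun q hq => hpair p hp q hq
      _ = (1 + η) * (Y / L) * ((1 / p) * ∑ q ∈ A2s N (bb N p),
            ((1 / (1 - Real.log p / L - Real.log q / L)) / q)) := by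
          rw [← mul_sum, ← mul_sum]
      _ ≤ (1 + η) * (Y / L) * ((1 / p) *
            (Real.log (2 - 3 * (Real.log p / L)) / (1 - Real.log p / L) + 9 * C / L)) := by
          have := hinner p hp
          gcongr
      _ = _ := by ring
  refine hstep.trans ?_
  have hA1 : A1s N = (range ⌈(N : ℝ) ^ (1 / 3 : ℝ)⌉₊).filter
      (fun p : ℕ => p.Prime ∧ (N : ℝ) ^ (1 / 8 : ℝ) ≤ (p : ℝ)) := rfl
  rw [← hA1] at ho1 ho2
  have hCL : 0 ≤ C / L := by positivity
  have h10 : ∑ p ∈ A1s N, 1 / (p : ℝ) ≤ 2 + 8 * C := by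
    have : 8 * C / L ≤ 8 * C := div_le_self (by positivity) hL1
    linarith
  have h11 : (∑ p ∈ A1s N, (Real.log (2 - 3 * (Real.log p / L)) / (1 - Real.log p / L)) / p
        + 9 * C / L * ∑ p ∈ A1s N, 1 / (p : ℝ)) ≤ J + K / L := by
    have h12 : 9 * C / L * ∑ p ∈ A1s N, 1 / (p : ℝ) ≤ 9 * C / L * (2 + 8 * C) := by
      gcongr
    have h13 : K / L = 8 * C / L + 9 * C / L * (2 + 8 * C) := by
      rw [hK]; ring
    linarith
  calc (1 + η) * (Y / L) * (∑ p ∈ A1s N,
        (Real.log (2 - 3 * (Real.log p / L)) / (1 - Real.log p / L)) / p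
        + 9 * C / L * ∑ p ∈ A1s N, 1 / (p : ℝ))
      ≤ (1 + η) * (Y / L) * (J + K / L) := by gcongr
    _ = ((1 + η) * (J + K / L)) * (Y / L) := by ring
    _ ≤ (J + δ) * (Y / L) := by
        gcongr
        have h14 : K / L ≤ δ / 4 := hKL.trans (min_le_right _ _)
        have h15 : K / L ≤ 1 := hKL.trans (min_le_left _ _)
        have hK0 : 0 ≤ K / L := by positivity
        nlinarith

end Pool.Agent.ChenW
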