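import Pool.Agent.Work.ChenW.B_CIW
import Pool.Agent.Work.ChenW.B_PRW
import Pool.Agent.Work.ChenW.B_A1W
import Pool.Agent.Work.ChenW.B_AQWx
import Pool.Agent.Work.ChenW.B_ABW
import Pool.Agent.Work.ChenW.B_XBW
import Pool.Agent.Work.ChenW.B_FINW
import Pool.Agent.Work.ChenW.B_PRIMW2
import Pool.Agent.Work.Chen.Main

/-!
# Chen's theorem in windows, unconditional
-/

set_option autoImplicit false

namespace Pool.Agent.ChenW

open Pool.Agent.Chen

/-- **Chen's theorem** with the prime in a window `(U, U + Y]`. -/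
theorem chenW_window : Stmt_FINW :=
  p_FINW LinearSieve.linear_sieve p_CIW p_PRW VL (p_A1W p_PRW) (p_AQWx p_PRW) (p_ABW p_PRW)
    (p_XBW PSblock) NUM

/-- Chen's theorem in the subwindows of the primorial windows. -/
theorem chenW_primorial : Stmt_PRIMW2 := p_PRIMW2 chenW_window

end Pool.Agent.ChenW
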